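import Mathlib

set_option autoImplicit false

/-!
# A maximal inequality for sums over intervals (chaining, weak type, exponent at least four)
-/

namespace Pool.Agent.Q39.EP

open Finset MeasureTheory

lemma geom_le (r : ℝ) (h0 : 0 ≤ r) (h1 : r < 1) (n : ℕ) : ∑ i ∈ range n, r ^ i ≤ 1 / (1 - r) := by
  have h2 : (∑ i ∈ range n, r ^ i) * (1 - r) = 1 - r ^ n := geom_sum_mul_neg r n
  rw [le_div_iff₀ (by linarith), h2]
  have := pow_nonneg h0 n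
  linarith

/-- If all the dyadic blocks of level `l ≤ J` have norm at most `t l`, then all the sums over
subintervals of `[b, b + 2^J)` are at most twice the sum of the `t l`. -/
lemma prefix_le (z : ℕ → ℂ) (b J : ℕ) (t : ℕ → ℝ) (ht : ∀ l, 0 ≤ t l)
    (h : ∀ l ≤ J, ∀ j < 2 ^ (J - l),
      ‖∑ n ∈ Ico (b + j * 2 ^ l) (b + j * 2 ^ l + 2 ^ l), z n‖ ≤ t l) (p : ℕ) (hp : p ≤ 2 ^ J) :
    ‖∑ n ∈ Ico b (b + p), z n‖ ≤ ∑ l ∈ range (J + 1), t l := by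
  set f : ℕ → ℂ := fun l => ∑ n ∈ Ico b (b + p / 2 ^ l * 2 ^ l), z n with hf
  have h0 : f 0 = ∑ n ∈ Ico b (b + p), z n := by simp [hf]
  have h1 : f (J + 1) = 0 := by
    have : p / 2 ^ (J + 1) = 0 := by
      apply Nat.div_eq_of_lt
      exact hp.trans_lt (Nat.pow_lt_pow_right (by norm_num) (Nat.lt_succ_self J))
    simp [hf, this]
  have h2 := Finset.sum_range_sub' f (J + 1)
  rw [h1, sub_zero, h0] at h2
  rw [← h2]
  refine (norm_sum_le _ _).trans (sum_le_sum fun l hl => ?_)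
  rw [mem_range] at hl
  have h3 : p / 2 ^ (l + 1) = p / 2 ^ l / 2 := by rw [Nat.div_div_eq_div_mul, pow_succ]
  rcases Nat.even_or_odd' (p / 2 ^ l) with ⟨s, hs | hs⟩
  · have h4 : f l = f (l + 1) := by
      simp only [hf]
      rw [h3, hs, Nat.mul_div_cancel_left s (by norm_num), pow_succ]
      congr 2
      ring
    rw [h4, sub_self, norm_zero]
    exact ht l
  · have h5 : p / 2 ^ (l + 1) = s := by rw [h3, hs]; omega
    have h6 : b + p / 2 ^ l * 2 ^ l = b + (2 * s) * 2 ^ l + 2 ^ l := by rw [hs]; ring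
    have h7 : b + p / 2 ^ (l + 1) * 2 ^ (l + 1) = b + (2 * s) * 2 ^ l := by rw [h5, pow_succ]; ring
    have h8 : f l - f (l + 1) = ∑ n ∈ Ico (b + (2 * s) * 2 ^ l) (b + (2 * s) * 2 ^ l + 2 ^ l), z n := by
      simp only [hf]
      rw [h6, h7, sub_eq_iff_eq_add', sum_Ico_consecutive]
      · exact Nat.le_add_right _ _
      · exact Nat.le_add_right _ _
    rw [h8]
    apply h l (by omega) (2 * s)
    have h9 : p / 2 ^ l * 2 ^ l ≤ p := Nat.div_mul_le_self _ _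
    have h10 : (2 * s + 1) * 2 ^ l ≤ 2 ^ (J - l) * 2 ^ l := by
      rw [← pow_add, Nat.sub_add_cancel (by omega), ← hs]
      omega
    have h11 := Nat.le_of_mul_le_mul_right h10 (by positivity)
    omega

lemma interval_le (z : ℕ → ℂ) (b J : ℕ) (t : ℕ → ℝ) (ht : ∀ l, 0 ≤ t l)
    (h : ∀ l ≤ J, ∀ j < 2 ^ (J - l),
      ‖∑ n ∈ Ico (b + j * 2 ^ l) (b + j * 2 ^ l + 2 ^ l), z n‖ ≤ t l) (u v : ℕ) (hu : b ≤ u)
    (hv : v ≤ b + 2 ^ J) :
    ‖∑ n ∈ Ico u v, z n‖ ≤ 2 * ∑ l ∈ range (J + 1), t l := by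
  have hs : 0 ≤ ∑ l ∈ range (J + 1), t l := sum_nonneg fun l _ => ht l
  rcases le_total v u with h1 | h1
  · rw [Ico_eq_empty (by omega), sum_empty, norm_zero]
    linarith
  · have h2 : ∑ n ∈ Ico u v, z n = ∑ n ∈ Ico b v, z n - ∑ n ∈ Ico b u, z n := by
      rw [eq_sub_iff_add_eq', sum_Ico_consecutive _ hu h1]
    have h3 := prefix_le z b J t ht h (v - b) (by omega)
    have h4 := prefix_le z b J t ht h (u - b) (by omega)
    rw [show b + (v - b) = v by omega] at h3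
    rw [show b + (u - b) = u by omega] at h4
    rw [h2]
    refine (norm_sub_le _ _).trans ?_
    linarith

lemma level (k : ℕ) (hk : 2 ≤ k) (J i : ℕ) (hi : i ≤ J) :
    (2 : ℝ) ^ i * ((2 : ℝ) ^ (J - i)) ^ k * ((10 / 9 : ℝ) ^ i) ^ (2 * k) ≤
      ((2 : ℝ) ^ J) ^ k * (5000 / 6561 : ℝ) ^ i := by
  have h1 : ((2 : ℝ) ^ J) ^ k = ((2 : ℝ) ^ (J - i)) ^ k * ((2 : ℝ) ^ i) ^ k := by
    rw [← mul_pow, ← pow_add, Nat.sub_add_cancel hi]
  rw [h1]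
  have h2 : (2 * (50 / 81 : ℝ) ^ k) ≤ 5000 / 6561 := by
    have : (50 / 81 : ℝ) ^ k ≤ (50 / 81 : ℝ) ^ 2 := pow_le_pow_of_le_one (by norm_num) (by norm_num) hk
    norm_num at this ⊢
    linarith
  have h3 : (2 * (50 / 81 : ℝ) ^ k) ^ i ≤ (5000 / 6561 : ℝ) ^ i :=
    pow_le_pow_left₀ (by positivity) h2 i
  have h4 : (2 : ℝ) ^ i * ((10 / 9 : ℝ) ^ i) ^ (2 * k) = ((2 : ℝ) ^ i) ^ k * (2 * (50 / 81 : ℝ) ^ k) ^ i := by
    rw [mul_pow, ← pow_mul, ← pow_mul, ← pow_mul]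
    have e1 : (10 / 9 : ℝ) ^ (i * (2 * k)) = (100 / 81 : ℝ) ^ (k * i) := by
      rw [show i * (2 * k) = 2 * (k * i) by ring, pow_mul]
      norm_num
    have e2 : (100 / 81 : ℝ) ^ (k * i) = 2 ^ (k * i) * (50 / 81 : ℝ) ^ (k * i) := by
      rw [← mul_pow]
      norm_num
    rw [e1, e2, mul_comm i k]
    ring
  calc (2 : ℝ) ^ i * ((2 : ℝ) ^ (J - i)) ^ k * ((10 / 9 : ℝ) ^ i) ^ (2 * k) =
      ((2 : ℝ) ^ (J - i)) ^ k * ((2 : ℝ) ^ i * ((10 / 9 : ℝ) ^ i) ^ (2 * k)) := by ring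
    _ = ((2 : ℝ) ^ (J - i)) ^ k * (((2 : ℝ) ^ i) ^ k * (2 * (50 / 81 : ℝ) ^ k) ^ i) := by rw [h4]
    _ ≤ ((2 : ℝ) ^ (J - i)) ^ k * (((2 : ℝ) ^ i) ^ k * (5000 / 6561 : ℝ) ^ i) := by gcongr
    _ = _ := by ring

theorem chain {Ω : Type*} [MeasurableSpace Ω] (μ : Measure Ω) (z : ℕ → Ω → ℂ) (k : ℕ) (hk : 2 ≤ k)
    (A : ℝ) (hA : 0 ≤ A)
    (h : ∀ a m : ℕ, ∀ t : ℝ, 0 < t → μ {ω | t ≤ ‖∑ n ∈ Ico a (a + m), z n ω‖} ≤
      ENNReal.ofReal (A * (m : ℝ) ^ k / t ^ (2 * k)))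
    (b J : ℕ) (lam : ℝ) (hl : 0 < lam) :
    μ {ω | ∃ u v : ℕ, b ≤ u ∧ v ≤ b + 2 ^ J ∧ lam < ‖∑ n ∈ Ico u v, z n ω‖} ≤
      ENNReal.ofReal (5 * A * 400 ^ k * ((2 : ℝ) ^ J) ^ k / lam ^ (2 * k)) := by
  set t : ℕ → ℝ := fun l => (9 / 10 : ℝ) ^ (J - l) * (lam / 20) with ht
  have ht0 : ∀ l, 0 < t l := fun l => by simp only [ht]; positivity
  have hsum : ∑ l ∈ range (J + 1), t l ≤ lam / 2 := by
    have h1 : ∑ l ∈ range (J + 1), t l = (∑ i ∈ range (J + 1), (9 / 10 : ℝ) ^ i) * (lam / 20) := by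
      rw [sum_mul, ← sum_range_reflect]
      refine sum_congr rfl fun i hi => ?_
      rw [mem_range] at hi
      simp only [ht]
      congr 2
      omega
    rw [h1]
    have h2 := geom_le (9 / 10) (by norm_num) (by norm_num) (J + 1)
    norm_num at h2
    nlinarith
  have hsub : {ω | ∃ u v : ℕ, b ≤ u ∧ v ≤ b + 2 ^ J ∧ lam < ‖∑ n ∈ Ico u v, z n ω‖} ⊆
      ⋃ l ∈ range (J + 1), ⋃ j ∈ range (2 ^ (J - l)),
        {ω | t l ≤ ‖∑ n ∈ Ico (b + j * 2 ^ l) (b + j * 2 ^ l + 2 ^ l), z n ω‖} := by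
    intro ω hω
    obtain ⟨u, v, hu, hv, hlt⟩ := hω
    by_contra hcon
    simp only [Set.mem_iUnion, mem_range, Set.mem_ofPred_eq, exists_prop, not_exists, not_and,
      not_le] at hcon
    have h1 := interval_le (fun n => z n ω) b J t (fun l => (ht0 l).le)
      (fun l hl j hj => (hcon l (by omega) j hj).le) u v hu hv
    linarith
  refine (measure_mono hsub).trans ?_
  have h1 : μ (⋃ l ∈ range (J + 1), ⋃ j ∈ range (2 ^ (J - l)),
        {ω | t l ≤ ‖∑ n ∈ Ico (b + j * 2 ^ l) (b + j * 2 ^ l + 2 ^ l), z n ω‖}) ≤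
      ∑ l ∈ range (J + 1), ∑ j ∈ range (2 ^ (J - l)),
        ENNReal.ofReal (A * ((2 ^ l : ℕ) : ℝ) ^ k / t l ^ (2 * k)) := by
    refine (measure_biUnion_finset_le _ _).trans (sum_le_sum fun l _ => ?_)
    refine (measure_biUnion_finset_le _ _).trans (sum_le_sum fun j _ => ?_)
    exact h _ _ _ (ht0 l)
  refine h1.trans ?_
  have h2 : ∑ l ∈ range (J + 1), ∑ j ∈ range (2 ^ (J - l)),
        ENNReal.ofReal (A * ((2 ^ l : ℕ) : ℝ) ^ k / t l ^ (2 * k)) =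
      ENNReal.ofReal (∑ l ∈ range (J + 1), (2 : ℝ) ^ (J - l) *
        (A * ((2 ^ l : ℕ) : ℝ) ^ k / t l ^ (2 * k))) := by
    rw [ENNReal.ofReal_sum_of_nonneg]
    · refine sum_congr rfl fun l _ => ?_
      rw [sum_const, card_range, nsmul_eq_mul, ENNReal.ofReal_mul (by positivity)]
      congr 1
      rw [ENNReal.ofReal_pow (by norm_num)]
      simp
    · intro l _
      have := ht0 l
      positivity
  rw [h2]
  apply ENNReal.ofReal_le_ofReal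
  have h3 : ∀ l ∈ range (J + 1), (2 : ℝ) ^ (J - l) * (A * ((2 ^ l : ℕ) : ℝ) ^ k / t l ^ (2 * k)) ≤
      A * 400 ^ k * ((2 : ℝ) ^ J) ^ k / lam ^ (2 * k) * (5000 / 6561 : ℝ) ^ (J - l) := by
    intro l hl
    rw [mem_range] at hl
    have h4 := level k hk J (J - l) (by omega)
    rw [show J - (J - l) = l by omega] at h4
    have h5 : t l ^ (2 * k) = lam ^ (2 * k) / (((10 / 9 : ℝ) ^ (J - l)) ^ (2 * k) * 400 ^ k) := by
      simp only [ht]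
      rw [mul_pow, div_pow lam]
      have e1 : (20 : ℝ) ^ (2 * k) = 400 ^ k := by rw [pow_mul]; norm_num
      have e2 : ((9 / 10 : ℝ) ^ (J - l)) ^ (2 * k) = 1 / ((10 / 9 : ℝ) ^ (J - l)) ^ (2 * k) := by
        rw [eq_div_iff (by positivity), ← mul_pow, ← mul_pow]
        norm_num
      rw [e1, e2]
      field_simp
    rw [h5]
    push_cast
    have h6 : (2 : ℝ) ^ (J - l) * (A * ((2 : ℝ) ^ l) ^ k /
        (lam ^ (2 * k) / (((10 / 9 : ℝ) ^ (J - l)) ^ (2 * k) * 400 ^ k))) =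
        A * 400 ^ k / lam ^ (2 * k) * ((2 : ℝ) ^ (J - l) * ((2 : ℝ) ^ l) ^ k *
          ((10 / 9 : ℝ) ^ (J - l)) ^ (2 * k)) := by
      field_simp
    rw [h6]
    calc A * 400 ^ k / lam ^ (2 * k) * ((2 : ℝ) ^ (J - l) * ((2 : ℝ) ^ l) ^ k *
          ((10 / 9 : ℝ) ^ (J - l)) ^ (2 * k)) ≤ A * 400 ^ k / lam ^ (2 * k) *
          (((2 : ℝ) ^ J) ^ k * (5000 / 6561 : ℝ) ^ (J - l)) := by gcongr
      _ = _ := by ring
  refine (sum_le_sum h3).trans ?_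
  rw [← mul_sum]
  have h7 : ∑ l ∈ range (J + 1), (5000 / 6561 : ℝ) ^ (J - l) ≤ 5 := by
    rw [← sum_range_reflect]
    have h8 : ∑ j ∈ range (J + 1), (5000 / 6561 : ℝ) ^ (J - (J + 1 - 1 - j)) =
        ∑ j ∈ range (J + 1), (5000 / 6561 : ℝ) ^ j := by
      refine sum_congr rfl fun j hj => ?_
      rw [mem_range] at hj
      congr 1
      omega
    rw [h8]
    refine (geom_le _ (by norm_num) (by norm_num) _).trans ?_
    norm_num
  calc A * 400 ^ k * ((2 : ℝ) ^ J) ^ k / lam ^ (2 * k) * ∑ l ∈ range (J + 1), (5000 / 6561 : ℝ) ^ (J - l)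
      ≤ A * 400 ^ k * ((2 : ℝ) ^ J) ^ k / lam ^ (2 * k) * 5 := by gcongr
    _ = _ := by ring

end Pool.Agent.Q39.EP
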