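import Pool.Agent.Q39.EP.Mult

set_option autoImplicit false

/-!
# Multipliers: the dimension of the exceptional set
-/

namespace Pool.Agent.Q39.EP

open Finset MeasureTheory

/-- the term -/
noncomputable def zz (f g : ℕ → ℝ) (n : ℕ) (θ : ℝ) : ℂ := e (f n + θ * g n)

/-- at scale `i` some sum over a subinterval of `[2^i, 2^(i+1))` is larger than `t` -/
def PP (f g : ℕ → ℝ) (i : ℕ) (θ t : ℝ) : Prop :=
  ∃ u v : ℕ, 2 ^ i ≤ u ∧ v ≤ 2 ^ i + 2 ^ i ∧ t < ‖∑ n ∈ Ico u v, zz f g n θ‖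

lemma zz_norm (f g : ℕ → ℝ) (n : ℕ) (θ : ℝ) : ‖zz f g n θ‖ = 1 := e_norm _

lemma meas (f g : ℕ → ℝ) (i : ℕ) (w : ℝ) (hw : 0 < w)
    (hg : ∀ m n : ℕ, 2 ^ i ≤ m → m < 2 ^ i + 2 ^ i → 2 ^ i ≤ n → n < 2 ^ i + 2 ^ i →
      w * |(n : ℝ) - m| ≤ |g n - g m|) (R t : ℝ) (hR : 0 ≤ R) (ht : 0 < t) :
    volume {θ : ℝ | θ ∈ Set.Icc (-R - 1) (R + 1) ∧ PP f g i θ t} ≤
      ENNReal.ofReal (4 * (2 * R + 2 + 2 * (i + 1) / w) * (i + 1) ^ 3 * 2 ^ i / t ^ 2) := by
  have hcont : ∀ n : ℕ, Continuous fun θ : ℝ => zz f g n θ := fun n => e_cont.comp (by fun_prop)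
  have h1 := chain2 (volume.restrict (Set.Icc (-R - 1) (R + 1))) (zz f g)
    (2 * R + 2 + 2 * (i + 1) / w) (by positivity) (2 ^ i) i (by
      intro l hl j hj s hs'
      have hIco : ∀ n, n ∈ Ico (2 ^ i + j * 2 ^ l) (2 ^ i + j * 2 ^ l + 2 ^ l) →
          2 ^ i ≤ n ∧ n < 2 ^ i + 2 ^ i := by
        intro n hn
        rw [mem_Ico] at hn
        have h2 : j * 2 ^ l + 2 ^ l ≤ 2 ^ i := by
          have h3 : (j + 1) * 2 ^ l ≤ 2 ^ (i - l) * 2 ^ l := Nat.mul_le_mul_right _ hj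
          rw [← pow_add, Nat.sub_add_cancel hl] at h3
          linarith
        constructor
        · have := Nat.le_add_right (2 ^ i) (j * 2 ^ l)
          omega
        · omega
      have hms := mean_sq (fun n => e (f n)) (fun n => (e_norm _).le) g (2 ^ i + j * 2 ^ l) (2 ^ l) w hw
        (fun m n hm hn _ => hg m n (hIco m hm).1 (hIco m hm).2 (hIco n hn).1 (hIco n hn).2)
        (-R - 1) (R + 1) (by linarith)
      set F : ℝ → ℂ := fun θ => ∑ n ∈ Ico (2 ^ i + j * 2 ^ l) (2 ^ i + j * 2 ^ l + 2 ^ l), zz f g n θ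
        with hF
      have hFc : Continuous F := continuous_finsetSum _ fun n _ => hcont n
      have hFe : ∀ θ, F θ = ∑ n ∈ Ico (2 ^ i + j * 2 ^ l) (2 ^ i + j * 2 ^ l + 2 ^ l),
          e (f n) * e (θ * g n) := by
        intro θ
        simp only [hF, zz, e_add]
      have hint : Integrable (fun θ : ℝ => ‖F θ‖ ^ 2) (volume.restrict (Set.Icc (-R - 1) (R + 1))) :=
        (hFc.norm.pow 2).continuousOn.integrableOn_compact isCompact_Icc
      have h2 := mul_meas_ge_le_integral_of_nonneg (μ := volume.restrict (Set.Icc (-R - 1) (R + 1)))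
        (f := fun θ : ℝ => ‖F θ‖ ^ 2) (Filter.Eventually.of_forall fun θ => by positivity) hint (s ^ 2)
      have h3 : ∫ θ in Set.Icc (-R - 1) (R + 1), ‖F θ‖ ^ 2 ≤
          (2 ^ l : ℕ) * ((R + 1 - (-R - 1)) + 2 * hs (2 ^ l) / w) := by
        rw [integral_Icc_eq_integral_Ioc, ← intervalIntegral.integral_of_le (by linarith)]
        simp_rw [hFe]
        exact hms
      have h4 : ((2 ^ l : ℕ) : ℝ) * ((R + 1 - (-R - 1)) + 2 * Pool.Agent.Q39.EP.hs (2 ^ l) / w) ≤
          (2 * R + 2 + 2 * (i + 1) / w) * 2 ^ l := by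
        have h5 := hs_pow l
        have h6 : (l : ℝ) ≤ i := by exact_mod_cast hl
        push_cast
        rw [mul_comm]
        have h7 : 2 * Pool.Agent.Q39.EP.hs (2 ^ l) / w ≤ 2 * (i + 1) / w := by
          gcongr
          linarith
        have h8 : R + 1 - (-R - 1) + 2 * Pool.Agent.Q39.EP.hs (2 ^ l) / w ≤
            2 * R + 2 + 2 * (i + 1) / w := by linarith
        exact mul_le_mul_of_nonneg_right h8 (by positivity)
      have h9 : (volume.restrict (Set.Icc (-R - 1) (R + 1))).real {θ | s ^ 2 ≤ ‖F θ‖ ^ 2} ≤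
          (2 * R + 2 + 2 * (i + 1) / w) * 2 ^ l / s ^ 2 := by
        rw [le_div_iff₀ (by positivity), mul_comm]
        exact h2.trans (h3.trans h4)
      have h10 : {θ : ℝ | s ≤ ‖F θ‖} ⊆ {θ | s ^ 2 ≤ ‖F θ‖ ^ 2} := fun θ hθ =>
        pow_le_pow_left₀ hs'.le hθ 2
      refine (measure_mono h10).trans ?_
      rw [← ofReal_measureReal (measure_ne_top _ _)]
      exact ENNReal.ofReal_le_ofReal h9) t ht
  refine le_trans ?_ h1
  rw [Measure.restrict_apply' measurableSet_Icc]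
  apply measure_mono
  intro θ hθ
  exact ⟨hθ.2, hθ.1⟩

lemma pers (f g : ℕ → ℝ) (i : ℕ) (W δ t : ℝ) (ht : 0 ≤ t)
    (hg : ∀ n : ℕ, 2 ^ i ≤ n → n < 2 ^ i + 2 ^ i → |g (n + 1) - g n| ≤ W)
    (hδ : 2 * Real.pi * δ * (W * 2 ^ i) ≤ 1) (θ θ' : ℝ) (h : |θ - θ'| ≤ δ) (hP : PP f g i θ (2 * t)) :
    PP f g i θ' t := by
  by_contra hcon
  have hW0 : 0 ≤ W := (abs_nonneg _).trans (hg (2 ^ i) le_rfl (by
    have := Nat.two_pow_pos i
    omega))
  have hy : ∀ u v : ℕ, 2 ^ i ≤ u → v ≤ 2 ^ i + 2 ^ i → ‖∑ n ∈ Ico u v, zz f g n θ'‖ ≤ t := by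
    intro u v hu hv
    by_contra hlt
    rw [not_le] at hlt
    exact hcon ⟨u, v, hu, hv, hlt⟩
  obtain ⟨u, v, hu, hv, hlt⟩ := hP
  have h1 : ∀ n, zz f g n θ = e ((θ - θ') * g n) * zz f g n θ' := by
    intro n
    unfold zz
    rw [← e_add]
    congr 1
    ring
  simp_rw [h1] at hlt
  have h2 := abel_le (fun n => e ((θ - θ') * g n)) (fun n => zz f g n θ') u v t 1
    (fun n => (e_norm _).le) (fun n hn => hy u n hu (hn.trans hv)) (by
      calc ∑ n ∈ Ico u v, ‖e ((θ - θ') * g (n + 1)) - e ((θ - θ') * g n)‖ ≤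
          ∑ n ∈ Ico u v, 2 * Real.pi * δ * W := by
            refine sum_le_sum fun n hn => ?_
            rw [mem_Ico] at hn
            refine (e_lip _ _).trans ?_
            rw [← mul_sub, abs_mul]
            have h3 := hg n (by omega) (by omega)
            have hδ0 : 0 ≤ δ := (abs_nonneg _).trans h
            calc 2 * Real.pi * (|θ - θ'| * |g (n + 1) - g n|) ≤ 2 * Real.pi * (δ * W) := by gcongr
              _ = _ := by ring
        _ = ((v - u : ℕ) : ℝ) * (2 * Real.pi * δ * W) := by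
            rw [sum_const, Nat.card_Ico, nsmul_eq_mul]
        _ ≤ (2 : ℝ) ^ i * (2 * Real.pi * δ * W) := by
            have hδ0 : 0 ≤ δ := (abs_nonneg _).trans h
            have h4 : ((v - u : ℕ) : ℝ) ≤ ((2 ^ i : ℕ) : ℝ) := by
              exact_mod_cast (by omega : v - u ≤ 2 ^ i)
            push_cast at h4
            gcongr
        _ = 2 * Real.pi * δ * (W * 2 ^ i) := by ring
        _ ≤ 1 := hδ)
  linarith

/-- Main estimate at all scales: `G i` is the parameter at the scale `2^i`. -/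
theorem dim_mult (f g : ℕ → ℝ) (G : ℕ → ℝ) (c C : ℝ) (hc : 0 < c)
    (i0 : ℕ) (hG : ∀ i, i0 ≤ i → (2 : ℝ) ^ i ≤ G i)
    (h1 : ∀ i, i0 ≤ i → ∀ m n : ℕ, 2 ^ i ≤ m → m < 2 ^ i + 2 ^ i → 2 ^ i ≤ n → n < 2 ^ i + 2 ^ i →
      c * G i / 2 ^ i * |(n : ℝ) - m| ≤ |g n - g m|)
    (h2 : ∀ i, i0 ≤ i → ∀ n : ℕ, 2 ^ i ≤ n → n < 2 ^ i + 2 ^ i →
      |g (n + 1) - g n| ≤ C * G i / 2 ^ i)
    (ε D R : ℝ) (hε : 0 < ε) (hD : 0 < D) (hDε : 1 - 2 * ε < D) (hR : 0 ≤ R) :
    dimH {θ : ℝ | θ ∈ Set.Icc (-R) R ∧ ∀ i1 : ℕ, ∃ i : ℕ, i1 ≤ i ∧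
      PP f g i θ (((2 : ℝ) ^ i) ^ (1 / 2 : ℝ) * G i ^ ε)} ≤ ENNReal.ofReal D := by
  have hC0 : 0 ≤ C := by
    have h3 := (abs_nonneg _).trans (h2 i0 le_rfl (2 ^ i0) le_rfl (by
      have := Nat.two_pow_pos i0
      omega))
    have h4 : 0 < G i0 / 2 ^ i0 := by
      have := hG i0 le_rfl
      have : (0 : ℝ) < 2 ^ i0 := by positivity
      exact div_pos (by linarith) this
    by_contra hneg
    rw [not_le] at hneg
    have : C * G i0 / 2 ^ i0 < 0 := by
      rw [mul_div_assoc]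
      exact mul_neg_of_neg_of_pos hneg h4
    linarith
  set κ : ℝ := 2 * Real.pi * C + 1 with hκ
  have hpi := Real.pi_pos
  have hκ1 : 1 ≤ κ := by rw [hκ]; nlinarith [mul_nonneg (mul_nonneg (by norm_num : (0 : ℝ) ≤ 2) hpi.le) hC0]
  set s : ℝ := D - 1 + 2 * ε with hs
  have hs0 : 0 < s := by rw [hs]; linarith
  set r : ℝ := (2 : ℝ) ^ (-(s / 2)) with hr
  have hr0 : 0 < r := by positivity
  have hr1 : r < 1 := Real.rpow_lt_one_of_one_lt_of_neg (by norm_num) (by linarith)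
  set t : ℕ → ℝ := fun i => ((2 : ℝ) ^ i) ^ (1 / 2 : ℝ) * G i ^ ε / 2 with ht
  set δ : ℕ → ℝ := fun i => 1 / (κ * G i) with hδ
  set A : ℝ := 16 * (2 * R + 2 + 2 / c) with hA
  have hA0 : 0 < A := by rw [hA]; positivity
  set M : ℕ → ℝ := fun i => A * (i + 1) ^ 4 * G i ^ (-(2 * ε)) with hM
  -- the growth condition
  have hgrow : ∃ i2 : ℕ, ∀ i : ℕ, i2 ≤ i →
      A * κ ^ (1 - D) * ((i : ℝ) + 1) ^ 4 ≤ (2 : ℝ) ^ (s / 2 * i) := by
    have h3 : Filter.Tendsto (fun i : ℕ => ((i : ℝ) + 1) ^ 4 * ((2 : ℝ) ^ (-(s / 2))) ^ i) Filter.atTop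
        (nhds 0) := by
      have h4 := tendsto_pow_const_mul_const_pow_of_abs_lt_one 4 (r := (2 : ℝ) ^ (-(s / 2)))
        (by rw [abs_of_pos (by positivity)]; exact hr1)
      have h5 := (Filter.tendsto_add_atTop_iff_nat 1).mpr h4
      have h6 := h5.const_mul (((2 : ℝ) ^ (-(s / 2)))⁻¹)
      rw [mul_zero] at h6
      refine h6.congr fun i => ?_
      push_cast
      have : (2 : ℝ) ^ (-(s / 2)) ≠ 0 := by positivity
      field_simp
      ring
    have h4 : ∀ᶠ i : ℕ in Filter.atTop, ((i : ℝ) + 1) ^ 4 * ((2 : ℝ) ^ (-(s / 2))) ^ i <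
        1 / (A * κ ^ (1 - D)) := by
      apply h3.eventually_lt_const
      positivity
    rw [Filter.eventually_atTop] at h4
    obtain ⟨i2, hi2⟩ := h4
    refine ⟨i2, fun i hi => ?_⟩
    have h5 := hi2 i hi
    rw [lt_div_iff₀ (by positivity), ← Real.rpow_natCast ((2 : ℝ) ^ (-(s / 2))) i,
      ← Real.rpow_mul (by norm_num), neg_mul, Real.rpow_neg (by norm_num)] at h5
    have h6 : (0 : ℝ) < 2 ^ (s / 2 * i) := by positivity
    have h7 : A * κ ^ (1 - D) * ((i : ℝ) + 1) ^ 4 * (2 ^ (s / 2 * (i : ℝ)))⁻¹ < 1 := by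
      calc A * κ ^ (1 - D) * ((i : ℝ) + 1) ^ 4 * (2 ^ (s / 2 * (i : ℝ)))⁻¹ =
          ((i : ℝ) + 1) ^ 4 * (2 ^ (s / 2 * (i : ℝ)))⁻¹ * (A * κ ^ (1 - D)) := by ring
        _ < 1 := h5
    rw [← div_eq_mul_inv, div_lt_one h6] at h7
    exact h7.le
  obtain ⟨i2, hi2⟩ := hgrow
  have hGpos : ∀ i, i0 ≤ i → 0 < G i := fun i hi => lt_of_lt_of_le (by positivity) (hG i hi)
  have key := dim_abs (PP f g) t δ M R D (1 / 2) r hD (by norm_num) (by norm_num) hr0 hr1 (max i0 i2)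
    (fun i hi => by
      have := hGpos i ((le_max_left _ _).trans hi)
      simp only [hδ]
      positivity)
    (fun i hi => by
      have h3 := hG i ((le_max_left _ _).trans hi)
      have h4 := hGpos i ((le_max_left _ _).trans hi)
      simp only [hδ]
      rw [one_div_pow]
      apply one_div_le_one_div_of_le (by positivity)
      nlinarith)
    (fun i hi => by
      have h4 := hGpos i ((le_max_left _ _).trans hi)
      simp only [hM]
      positivity)
    (fun i hi => by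
      have hi0 := (le_max_left _ _).trans hi
      have h3 := hG i hi0
      have h4 := hGpos i hi0
      have h5 : 0 < t i := by simp only [ht]; positivity
      refine (meas f g i (c * G i / 2 ^ i) (by positivity) (h1 i hi0) R (t i) hR h5).trans ?_
      apply ENNReal.ofReal_le_ofReal
      have h6 : t i ^ 2 = (2 : ℝ) ^ i * G i ^ (2 * ε) / 4 := by
        simp only [ht]
        rw [div_pow, mul_pow, ← Real.rpow_natCast (((2 : ℝ) ^ i) ^ (1 / 2 : ℝ)) 2,
          ← Real.rpow_mul (by positivity), ← Real.rpow_natCast (G i ^ ε) 2, ← Real.rpow_mul h4.le]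
        norm_num
        ring_nf
      have h7 : 2 * ((i : ℝ) + 1) / (c * G i / 2 ^ i) ≤ 2 / c * (i + 1) := by
        have h8 : c ≤ c * G i / 2 ^ i := by
          rw [le_div_iff₀ (by positivity)]
          gcongr
        calc 2 * ((i : ℝ) + 1) / (c * G i / 2 ^ i) ≤ 2 * ((i : ℝ) + 1) / c := by gcongr
          _ = _ := by ring
      have h8 : 2 * R + 2 + 2 * ((i : ℝ) + 1) / (c * G i / 2 ^ i) ≤
          (2 * R + 2 + 2 / c) * (i + 1) := by
        have h9 : (0 : ℝ) ≤ i := Nat.cast_nonneg i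
        have h10 : 2 * R + 2 ≤ (2 * R + 2) * ((i : ℝ) + 1) := by nlinarith
        nlinarith
      rw [h6]
      have h11 : G i ^ (-(2 * ε)) = 1 / G i ^ (2 * ε) := by
        rw [Real.rpow_neg h4.le, one_div]
      simp only [hM]
      rw [h11]
      have h12 : (0 : ℝ) < G i ^ (2 * ε) := by positivity
      calc 4 * (2 * R + 2 + 2 * ((i : ℝ) + 1) / (c * G i / 2 ^ i)) * (i + 1) ^ 3 * 2 ^ i /
          ((2 : ℝ) ^ i * G i ^ (2 * ε) / 4) ≤
          4 * ((2 * R + 2 + 2 / c) * (i + 1)) * (i + 1) ^ 3 * 2 ^ i /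
          ((2 : ℝ) ^ i * G i ^ (2 * ε) / 4) := by gcongr
        _ = A * (i + 1) ^ 4 * (1 / G i ^ (2 * ε)) := by
            rw [hA]
            field_simp
            ring)
    (fun i hi θ θ' hθ hP => by
      have hi0 := (le_max_left _ _).trans hi
      have h4 := hGpos i hi0
      refine pers f g i (C * G i / 2 ^ i) (δ i) (t i) (by simp only [ht]; positivity)
        (h2 i hi0) ?_ θ θ' hθ hP
      simp only [hδ]
      have h5 : 2 * Real.pi * (1 / (κ * G i)) * (C * G i / 2 ^ i * 2 ^ i) = 2 * Real.pi * C / κ := by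
        field_simp
      rw [h5, div_le_one (by linarith), hκ]
      linarith)
    (fun i hi => by
      have hi0 := (le_max_left _ _).trans hi
      have h3 := hG i hi0
      have h4 := hGpos i hi0
      have hκ0 : 0 < κ := by linarith
      have h5 : M i / δ i * δ i ^ D = A * κ ^ (1 - D) * (i + 1) ^ 4 * G i ^ (-s) := by
        simp only [hM, hδ]
        rw [one_div, Real.inv_rpow (by positivity), Real.mul_rpow hκ0.le h4.le, div_inv_eq_mul,
          Real.rpow_sub hκ0, Real.rpow_one]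
        have h6 : G i ^ (-s) = G i ^ (-(2 * ε)) * G i / G i ^ D := by
          rw [← Real.rpow_add_one h4.ne', ← Real.rpow_sub h4]
          congr 1
          rw [hs]
          ring
        rw [h6]
        have h7 : (0 : ℝ) < G i ^ D := by positivity
        have h8 : (0 : ℝ) < κ ^ D := by positivity
        field_simp
      rw [h5]
      have h6 : G i ^ (-s) ≤ ((2 : ℝ) ^ i) ^ (-s) :=
        Real.rpow_le_rpow_of_nonpos (by positivity) h3 (by linarith)
      have h7 := hi2 i ((le_max_right _ _).trans hi)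
      have h8 : ((2 : ℝ) ^ i) ^ (-s) = (2 : ℝ) ^ (-(s * i)) := by
        rw [← Real.rpow_natCast, ← Real.rpow_mul (by norm_num)]
        congr 1
        ring
      calc A * κ ^ (1 - D) * ((i : ℝ) + 1) ^ 4 * G i ^ (-s) ≤
          (2 : ℝ) ^ (s / 2 * i) * ((2 : ℝ) ^ i) ^ (-s) := by gcongr
        _ = r ^ i := by
            rw [h8, hr, ← Real.rpow_natCast ((2 : ℝ) ^ (-(s / 2))), ← Real.rpow_mul (by norm_num),
              ← Real.rpow_add (by norm_num)]
            congr 1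
            ring)
  have hset : ∀ i, 2 * t i = ((2 : ℝ) ^ i) ^ (1 / 2 : ℝ) * G i ^ ε := by
    intro i
    simp only [ht]
    ring
  simp only [hset] at key
  exact key

end Pool.Agent.Q39.EP
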