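import Pool.Agent.Q39.EP.Mom
import Pool.Agent.Q39.EP.Chain

set_option autoImplicit false

/-!
# Polynomial perturbations of an arbitrary function
-/

namespace Pool.Agent.Q39.EP

open Finset MeasureTheory

lemma markov {k : ℕ} (c : ℕ → ℂ) (hc : ∀ n, ‖c n‖ ≤ 1) (B : Finset ℕ) (t : ℝ) (ht : 0 < t) :
    (mu k) {α | t ≤ ‖S c B α‖} ≤ ENNReal.ofReal (k.factorial * (B.card : ℝ) ^ k / t ^ (2 * k)) := by
  have h1 : {α : Fin k → ℝ | t ≤ ‖S c B α‖} ⊆ {α | t ^ (2 * k) ≤ ‖S c B α‖ ^ (2 * k)} := by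
    intro α hα
    exact pow_le_pow_left₀ ht.le hα _
  refine (measure_mono h1).trans ?_
  have hb : ∀ α : Fin k → ℝ, ‖S c B α‖ ≤ B.card := by
    intro α
    unfold S
    refine (norm_sum_le _ _).trans ?_
    rw [card_eq_sum_ones, Nat.cast_sum]
    refine sum_le_sum fun n _ => ?_
    rw [norm_mul, e_norm, mul_one, Nat.cast_one]
    exact hc n
  have hint : Integrable (fun α : Fin k → ℝ => ‖S c B α‖ ^ (2 * k)) (mu k) := by
    refine Integrable.of_bound ((S_cont c B).norm.pow _).aestronglyMeasurable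
      ((B.card : ℝ) ^ (2 * k)) (Filter.Eventually.of_forall fun α => ?_)
    rw [norm_pow, norm_norm]
    exact pow_le_pow_left₀ (norm_nonneg _) (hb α) _
  have h2 := mul_meas_ge_le_integral_of_nonneg (μ := mu k)
    (f := fun α : Fin k → ℝ => ‖S c B α‖ ^ (2 * k))
    (Filter.Eventually.of_forall fun α => by positivity) hint (t ^ (2 * k))
  have h3 := h2.trans (moment c hc B)
  have h4 : (mu k).real {α | t ^ (2 * k) ≤ ‖S c B α‖ ^ (2 * k)} ≤
      k.factorial * (B.card : ℝ) ^ k / t ^ (2 * k) := by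
    rw [le_div_iff₀ (by positivity), mul_comm]
    exact h3
  rw [← ofReal_measureReal (measure_ne_top _ _)]
  exact ENNReal.ofReal_le_ofReal h4

lemma volume_eq {k : ℕ} (E : Set (Fin k → ℝ)) (hE : ∀ α ∈ E, ∀ j, α j ∈ Set.Icc (0 : ℝ) 1) :
    volume E ≤ (mu k) E := by
  have h1 : mu k = (volume : Measure (Fin k → ℝ)).restrict (Set.pi Set.univ fun _ => Set.Icc 0 1) := by
    unfold mu
    rw [volume_pi, Measure.restrict_pi_pi]
  rw [h1, Measure.restrict_apply' (MeasurableSet.univ_pi fun _ => measurableSet_Icc)]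
  apply measure_mono
  intro α hα
  exact ⟨hα, fun j _ => hE α hα j⟩

theorem bad (k : ℕ) (hk : 2 ≤ k) (N : ℝ) (hN : 1 ≤ N) (c : ℕ → ℂ) (hc : ∀ n, ‖c n‖ ≤ 1) (V : ℝ)
    (hV : 0 < V) :
    volume {α : Fin k → ℝ | (∀ j, α j ∈ Set.Icc (0 : ℝ) 1) ∧ ∃ N1 N2 : ℕ, N ≤ N1 ∧ (N2 : ℝ) ≤ 2 * N ∧
      N ^ (1 / 2 : ℝ) * V < ‖∑ n ∈ Icc N1 N2, c n * e (ph α n)‖} ≤
    ENNReal.ofReal (5 * k.factorial * 1600 ^ k / V ^ (2 * k)) := by
  have hN0 : 0 < N := by linarith
  have hl : 0 < N ^ (1 / 2 : ℝ) * V := by positivity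
  -- the dyadic length
  obtain ⟨J, hJ1, hJ2⟩ : ∃ J : ℕ, N + 1 ≤ (2 : ℝ) ^ J ∧ (2 : ℝ) ^ J ≤ 4 * N := by
    have hex : ∃ J : ℕ, N + 1 ≤ (2 : ℝ) ^ J :=
      (pow_unbounded_of_one_lt (N + 1) (by norm_num : (1 : ℝ) < 2)).imp fun _ h => h.le
    classical
    refine ⟨Nat.find hex, Nat.find_spec hex, ?_⟩
    rcases Nat.eq_zero_or_pos (Nat.find hex) with h | h
    · rw [h]
      norm_num
      linarith
    · have h1 := Nat.find_min hex (m := Nat.find hex - 1) (by omega)
      rw [not_le] at h1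
      have h2 : (2 : ℝ) ^ Nat.find hex = 2 * 2 ^ (Nat.find hex - 1) := by
        rw [← pow_succ', Nat.sub_add_cancel h]
      rw [h2]
      linarith
  have hch := chain (mu k) (fun n (α : Fin k → ℝ) => c n * e (ph α n)) k hk (k.factorial : ℝ)
    (by positivity) (fun a m t ht => by
      have := markov (k := k) c hc (Ico a (a + m)) t ht
      rw [Nat.card_Ico, Nat.add_sub_cancel_left] at this
      exact this) ⌈N⌉₊ J _ hl
  refine (volume_eq _ fun α hα => hα.1).trans ((measure_mono ?_).trans (hch.trans ?_))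
  · intro α hα
    obtain ⟨-, N1, N2, h1, h2, h3⟩ := hα
    refine ⟨N1, N2 + 1, Nat.ceil_le.2 h1, ?_, ?_⟩
    · have h4 : ((N2 + 1 : ℕ) : ℝ) ≤ ((⌈N⌉₊ + 2 ^ J : ℕ) : ℝ) := by
        push_cast
        have := Nat.le_ceil N
        linarith
      exact_mod_cast h4
    · exact h3
  · apply ENNReal.ofReal_le_ofReal
    have h5 : (N ^ (1 / 2 : ℝ) * V) ^ (2 * k) = N ^ k * V ^ (2 * k) := by
      rw [mul_pow, pow_mul (N ^ (1 / 2 : ℝ))]
      congr 2
      rw [← Real.rpow_natCast (N ^ (1 / 2 : ℝ)) 2, ← Real.rpow_mul hN0.le]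
      norm_num
    rw [h5]
    have h6 : ((2 : ℝ) ^ J) ^ k ≤ 4 ^ k * N ^ k := by
      rw [← mul_pow]
      exact pow_le_pow_left₀ (by positivity) hJ2 k
    rw [div_le_div_iff₀ (by positivity) (by positivity)]
    have h7 : (1600 : ℝ) ^ k = 400 ^ k * 4 ^ k := by rw [← mul_pow]; norm_num
    calc 5 * (k.factorial : ℝ) * 400 ^ k * ((2 : ℝ) ^ J) ^ k * V ^ (2 * k) ≤
        5 * (k.factorial : ℝ) * 400 ^ k * (4 ^ k * N ^ k) * V ^ (2 * k) := by gcongr
      _ = 5 * (k.factorial : ℝ) * 1600 ^ k * (N ^ k * V ^ (2 * k)) := by rw [h7]; ring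

/-! ### Admissibility of the perturbed functions -/

/-- the polynomial `∑ α_j x^(j+1)` -/
noncomputable def pol {k : ℕ} (α : Fin k → ℝ) (x : ℝ) : ℝ := ∑ j, α j * x ^ (j.val + 1)

lemma pol_contDiff {k : ℕ} (α : Fin k → ℝ) {m : WithTop ℕ∞} : ContDiff ℝ m (pol α) := by
  unfold pol
  fun_prop

lemma pol_deriv {k : ℕ} (α : Fin k → ℝ) (hα : ∀ j, |α j| ≤ 1) (N : ℝ) (hN : 1 ≤ N) (i : ℕ) (x : ℝ)
    (hx : x ∈ Set.Icc N (2 * N)) :
    |iteratedDerivWithin i (pol α) (Set.Icc N (2 * N)) x| ≤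
      if i ≤ k then k * (k ^ k * 2 ^ k) * N ^ k / N ^ i else 0 := by
  have hs : UniqueDiffOn ℝ (Set.Icc N (2 * N)) := uniqueDiffOn_Icc (by linarith)
  have hx0 : 0 ≤ x := by linarith [hx.1]
  have h1 : iteratedDerivWithin i (pol α) (Set.Icc N (2 * N)) x =
      ∑ j : Fin k, α j * (((j.val + 1).descFactorial i : ℝ) * x ^ (j.val + 1 - i)) := by
    unfold pol
    rw [iteratedDerivWithin_fun_sum hx hs (f := fun (j : Fin k) (x : ℝ) => α j * x ^ (j.val + 1))]
    · refine sum_congr rfl fun j _ => ?_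
      rw [iteratedDerivWithin_const_mul_field, iteratedDerivWithin_pow hx hs]
    · intro j _
      fun_prop
  rw [h1]
  split_ifs with hi
  · refine (abs_sum_le_sum_abs _ _).trans ?_
    have h2 : ∀ j ∈ (univ : Finset (Fin k)),
        |α j * (((j.val + 1).descFactorial i : ℝ) * x ^ (j.val + 1 - i))| ≤
          (k ^ k * 2 ^ k) * N ^ k / N ^ i := by
      intro j _
      have hj := j.isLt
      rw [abs_mul, abs_mul, abs_of_nonneg (by positivity : (0 : ℝ) ≤ ((j.val + 1).descFactorial i : ℝ)),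
        abs_of_nonneg (by positivity : (0 : ℝ) ≤ x ^ (j.val + 1 - i))]
      rcases Nat.lt_or_ge (j.val + 1) i with h3 | h3
      · rw [Nat.descFactorial_eq_zero_iff_lt.2 h3]
        simp only [Nat.cast_zero, zero_mul, mul_zero]
        positivity
      · have h4 : ((j.val + 1).descFactorial i : ℝ) ≤ (k : ℝ) ^ k := by
          have h5 : (j.val + 1).descFactorial i ≤ (j.val + 1) ^ i := Nat.descFactorial_le_pow _ _
          have h6 : (j.val + 1) ^ i ≤ k ^ k :=
            (Nat.pow_le_pow_left (by omega) i).trans (Nat.pow_le_pow_right (by omega) hi)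
          exact_mod_cast h5.trans h6
        have h7 : x ^ (j.val + 1 - i) ≤ 2 ^ k * (N ^ k / N ^ i) := by
          have h8 : x ^ (j.val + 1 - i) ≤ (2 * N) ^ (k - i) := by
            refine (pow_le_pow_left₀ hx0 hx.2 _).trans ?_
            exact pow_le_pow_right₀ (by linarith) (by omega)
          have h9 : (2 * N) ^ (k - i) ≤ 2 ^ k * N ^ (k - i) := by
            rw [mul_pow]
            have : (2 : ℝ) ^ (k - i) ≤ 2 ^ k := pow_le_pow_right₀ (by norm_num) (by omega)
            gcongr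
          have h10 : N ^ (k - i) = N ^ k / N ^ i := by
            rw [eq_div_iff (by positivity), ← pow_add, Nat.sub_add_cancel hi]
          rw [← h10]
          exact h8.trans h9
        calc |α j| * (((j.val + 1).descFactorial i : ℝ) * x ^ (j.val + 1 - i)) ≤
            1 * ((k : ℝ) ^ k * (2 ^ k * (N ^ k / N ^ i))) := by
              gcongr
              exact hα j
          _ = _ := by ring
    refine (sum_le_sum h2).trans ?_
    rw [sum_const, card_univ, Fintype.card_fin, nsmul_eq_mul]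
    apply le_of_eq
    ring
  · rw [sum_eq_zero, abs_zero]
    intro j _
    have hj := j.isLt
    rw [Nat.descFactorial_eq_zero_iff_lt.2 (by omega)]
    simp

/-- `f` is admissible at scale `N` with the parameter `F` (with the constants `c j`, `C j`). -/
def Adm (c C : ℕ → ℝ) (N F : ℝ) (f : ℝ → ℝ) : Prop :=
  ContDiffOn ℝ (⊤ : ℕ∞) f (Set.Icc N (2 * N)) ∧
  ∀ j : ℕ, ∀ x ∈ Set.Icc N (2 * N),
    c j * F / N ^ j ≤ |iteratedDerivWithin j f (Set.Icc N (2 * N)) x| ∧
    |iteratedDerivWithin j f (Set.Icc N (2 * N)) x| ≤ C j * F / N ^ j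

theorem adm_add (k : ℕ) (c C : ℕ → ℝ) (hc : ∀ j, 0 < c j) : ∃ L : ℝ, 0 < L ∧
    ∀ N F : ℝ, ∀ f : ℝ → ℝ, 1 ≤ N → L * N ^ k ≤ F → Adm c C N F f →
      ∀ α : Fin k → ℝ, (∀ j, |α j| ≤ 1) →
        Adm (fun j => c j / 2) (fun j => 2 * C j) N F (fun x => f x + pol α x) := by
  refine ⟨∑ i ∈ range (k + 1), 2 * ((k + 1) * (k ^ k * 2 ^ k)) / c i, ?_, ?_⟩
  · refine sum_pos (fun i _ => ?_) ⟨0, by simp⟩
    have := hc i
    have h1 : (0 : ℝ) < (k : ℝ) ^ k := by
      rcases Nat.eq_zero_or_pos k with h | h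
      · subst h; norm_num
      · positivity
    positivity
  · intro N F f hN hL hf α hα
    have hs : UniqueDiffOn ℝ (Set.Icc N (2 * N)) := uniqueDiffOn_Icc (by linarith)
    refine ⟨hf.1.add (pol_contDiff α).contDiffOn, fun j x hx => ?_⟩
    have h1 : iteratedDerivWithin j (fun x => f x + pol α x) (Set.Icc N (2 * N)) x =
        iteratedDerivWithin j f (Set.Icc N (2 * N)) x +
          iteratedDerivWithin j (pol α) (Set.Icc N (2 * N)) x := by
      refine iteratedDerivWithin_fun_add hx hs ?_ ?_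
      · exact (hf.1 x hx).of_le (by exact_mod_cast le_top)
      · exact (pol_contDiff α).contDiffWithinAt
    have hN0 : 0 < N := by linarith
    have hcj := hc j
    obtain ⟨h2, h3⟩ := hf.2 j x hx
    have h4 : |iteratedDerivWithin j (pol α) (Set.Icc N (2 * N)) x| ≤ c j / 2 * F / N ^ j := by
      refine (pol_deriv α hα N hN j x hx).trans ?_
      split_ifs with hj
      · have h5 : 2 * ((k + 1) * ((k : ℝ) ^ k * 2 ^ k)) / c j ≤
            ∑ i ∈ range (k + 1), 2 * ((k + 1) * ((k : ℝ) ^ k * 2 ^ k)) / c i :=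
          single_le_sum (f := fun i => 2 * ((k + 1) * ((k : ℝ) ^ k * 2 ^ k)) / c i)
            (fun i _ => by have := hc i; positivity) (mem_range.2 (by omega))
        have h6 : 2 * ((k + 1) * ((k : ℝ) ^ k * 2 ^ k)) / c j * N ^ k ≤ F :=
          (mul_le_mul_of_nonneg_right h5 (by positivity)).trans hL
        have h7 : (k * (k ^ k * 2 ^ k) : ℝ) * N ^ k ≤ c j / 2 * F := by
          have h8 : c j / 2 * (2 * ((k + 1) * ((k : ℝ) ^ k * 2 ^ k)) / c j * N ^ k) ≤ c j / 2 * F := by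
            gcongr
          have h9 : c j / 2 * (2 * ((k + 1) * ((k : ℝ) ^ k * 2 ^ k)) / c j * N ^ k) =
              ((k + 1) * ((k : ℝ) ^ k * 2 ^ k)) * N ^ k := by
            field_simp
          rw [h9] at h8
          refine le_trans ?_ h8
          gcongr
          linarith
        gcongr
      · have hF : 0 ≤ F := by
          refine le_trans ?_ hL
          refine mul_nonneg (sum_nonneg fun i _ => ?_) (by positivity)
          have := hc i
          positivity
        positivity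
    have h5 : c j / 2 * F / N ^ j = c j * F / N ^ j / 2 := by ring
    rw [h5] at h4
    rw [h1]
    constructor
    · have h6 := abs_sub_abs_le_abs_sub (iteratedDerivWithin j f (Set.Icc N (2 * N)) x)
        (-iteratedDerivWithin j (pol α) (Set.Icc N (2 * N)) x)
      rw [abs_neg, sub_neg_eq_add] at h6
      simp only []
      rw [h5]
      linarith
    · have h6 := abs_add_le (iteratedDerivWithin j f (Set.Icc N (2 * N)) x)
        (iteratedDerivWithin j (pol α) (Set.Icc N (2 * N)) x)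
      have h7 : 2 * C j * F / N ^ j = 2 * (C j * F / N ^ j) := by ring
      simp only []
      rw [h7]
      have h8 : 0 ≤ |iteratedDerivWithin j f (Set.Icc N (2 * N)) x| := abs_nonneg _
      linarith

end Pool.Agent.Q39.EP
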