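import Pool.Agent.Q39.EP.Dil
import Pool.Agent.Q39.EP.Main

set_option autoImplicit false

/-!
# Multipliers of functions which are admissible at every scale
-/

namespace Pool.Agent.Q39.EP

open Finset MeasureTheory

/-- the slopes of `g` on `[N, 2N]` are between `c F / N` and `C F / N` -/
lemma slope_of_adm {c C : ℕ → ℝ} {N F : ℝ} {g : ℝ → ℝ} (h : Adm c C N F g) (x y : ℝ)
    (hx : x ∈ Set.Icc N (2 * N)) (hy : y ∈ Set.Icc N (2 * N)) :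
    c 1 * F / N * |y - x| ≤ |g y - g x| ∧ |g y - g x| ≤ C 1 * F / N * |y - x| := by
  wlog hxy : x ≤ y generalizing x y
  · have := this y x hy hx (le_of_not_ge hxy)
    rwa [abs_sub_comm x y, abs_sub_comm (g x) (g y)] at this
  rcases hxy.eq_or_lt with h0 | hlt
  · subst h0
    simp
  have hd : ∀ z ∈ Set.Ioo N (2 * N), DifferentiableAt ℝ g z := by
    intro z hz
    have h1 := h.1.contDiffAt (x := z) (Icc_mem_nhds hz.1 hz.2)
    exact h1.differentiableAt (by simp)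
  obtain ⟨ξ, hξ, hξ2⟩ := exists_deriv_eq_slope g hlt
    (h.1.continuousOn.mono (Set.Icc_subset_Icc hx.1 hy.2))
    (fun z hz => (hd z ⟨lt_of_le_of_lt hx.1 hz.1, lt_of_lt_of_le hz.2 hy.2⟩).differentiableWithinAt)
  have hξ3 : ξ ∈ Set.Ioo N (2 * N) := ⟨lt_of_le_of_lt hx.1 hξ.1, lt_of_lt_of_le hξ.2 hy.2⟩
  have h2 := h.2 1 ξ ⟨hξ3.1.le, hξ3.2.le⟩
  rw [iteratedDerivWithin_one, derivWithin_of_mem_nhds (Icc_mem_nhds hξ3.1 hξ3.2), hξ2, pow_one,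
    abs_div] at h2
  have hpos : 0 < |y - x| := abs_pos.2 (by linarith)
  exact ⟨(le_div_iff₀ hpos).1 h2.1, (div_le_iff₀ hpos).1 h2.2⟩

section

variable {g : ℝ → ℝ} {F : ℝ → ℝ} {c C : ℝ}

/-- comparison of the parameters at two overlapping scales -/
lemma comp (hc : 0 < c)
    (hs : ∀ N : ℝ, 2 ≤ N → ∀ x y : ℝ, x ∈ Set.Icc N (2 * N) → y ∈ Set.Icc N (2 * N) →
      c * F N / N * |y - x| ≤ |g y - g x| ∧ |g y - g x| ≤ C * F N / N * |y - x|)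
    (N N' : ℝ) (hN : 2 ≤ N) (h1 : N ≤ N') (h2 : N' < 2 * N) :
    F N ≤ C / c * F N' * (N / N') ∧ F N' ≤ C / c * F N * (N' / N) := by
  have h3 := hs N hN N' (2 * N) ⟨h1, h2.le⟩ ⟨by linarith, le_rfl⟩
  have h4 := hs N' (by linarith) N' (2 * N) ⟨le_rfl, by linarith⟩ ⟨h2.le, by linarith⟩
  have hpos : 0 < |2 * N - N'| := abs_pos.2 (by linarith)
  have hN0 : 0 < N := by linarith
  have hN'0 : 0 < N' := by linarith
  have h5 : c * F N / N ≤ C * F N' / N' :=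
    le_of_mul_le_mul_right (h3.1.trans h4.2) hpos
  have h6 : c * F N' / N' ≤ C * F N / N :=
    le_of_mul_le_mul_right (h4.1.trans h3.2) hpos
  rw [div_le_div_iff₀ hN0 hN'0] at h5
  rw [div_le_div_iff₀ hN'0 hN0] at h6
  constructor
  · rw [div_mul_eq_mul_div, div_mul_div_comm, le_div_iff₀ (by positivity)]
    nlinarith
  · rw [div_mul_eq_mul_div, div_mul_div_comm, le_div_iff₀ (by positivity)]
    nlinarith

lemma c_le_C (hc : 0 < c) (hF : ∀ N : ℝ, 2 ≤ N → N ≤ F N)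
    (hs : ∀ N : ℝ, 2 ≤ N → ∀ x y : ℝ, x ∈ Set.Icc N (2 * N) → y ∈ Set.Icc N (2 * N) →
      c * F N / N * |y - x| ≤ |g y - g x| ∧ |g y - g x| ≤ C * F N / N * |y - x|) : c ≤ C := by
  have h1 := hs 2 le_rfl 2 3 (by norm_num) (by norm_num)
  have h2 := hF 2 le_rfl
  have h3 := h1.1.trans h1.2
  have h4 : |(3 : ℝ) - 2| = 1 := by norm_num
  rw [h4, mul_one, mul_one] at h3
  have h5 : 0 < F 2 / 2 := by linarith
  have h6 : c * (F 2 / 2) ≤ C * (F 2 / 2) := by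
    rw [← mul_div_assoc, ← mul_div_assoc]
    exact h3
  exact le_of_mul_le_mul_right h6 h5

/-- the parameters at the scales `2^i` and `2^(i+1)` compared with the one at `N ∈ [2^i, 2^(i+1))` -/
lemma comp2 (hc : 0 < c) (hF : ∀ N : ℝ, 2 ≤ N → N ≤ F N)
    (hs : ∀ N : ℝ, 2 ≤ N → ∀ x y : ℝ, x ∈ Set.Icc N (2 * N) → y ∈ Set.Icc N (2 * N) →
      c * F N / N * |y - x| ≤ |g y - g x| ∧ |g y - g x| ≤ C * F N / N * |y - x|)
    (P N : ℝ) (hP : 2 ≤ P) (h1 : P ≤ N) (h2 : N < 2 * P) :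
    F P ≤ 4 * (C / c) ^ 3 * F N ∧ F (2 * P) ≤ 4 * (C / c) ^ 3 * F N := by
  have hcC := c_le_C hc hF hs
  have hr : 1 ≤ C / c := by rw [le_div_iff₀ hc]; linarith
  have hr0 : 0 < C / c := by linarith
  have hFP := hF P hP
  have hFN := hF N (by linarith)
  have hFP0 : 0 < F P := by linarith
  have hFN0 : 0 < F N := by linarith
  have h3 : F P ≤ C / c * F N := by
    have h4 := (comp hc hs P N hP h1 h2).1
    have h5 : P / N ≤ 1 := by rw [div_le_one (by linarith)]; exact h1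
    calc F P ≤ C / c * F N * (P / N) := h4
      _ ≤ C / c * F N * 1 := by gcongr
      _ = _ := mul_one _
  have h4 : F (3 / 2 * P) ≤ 3 / 2 * (C / c) * F P := by
    have h5 := (comp hc hs P (3 / 2 * P) hP (by linarith) (by linarith)).2
    have h6 : 3 / 2 * P / P = 3 / 2 := by field_simp
    rw [h6] at h5
    linarith
  have h5 : F (2 * P) ≤ 4 / 3 * (C / c) * F (3 / 2 * P) := by
    have h6 := (comp hc hs (3 / 2 * P) (2 * P) (by linarith) (by linarith) (by linarith)).2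
    have h7 : 2 * P / (3 / 2 * P) = 4 / 3 := by field_simp; norm_num
    rw [h7] at h6
    linarith
  have h6 : F (2 * P) ≤ 2 * (C / c) ^ 2 * F P := by
    calc F (2 * P) ≤ 4 / 3 * (C / c) * F (3 / 2 * P) := h5
      _ ≤ 4 / 3 * (C / c) * (3 / 2 * (C / c) * F P) := by gcongr
      _ = _ := by ring
  constructor
  · have h7 : C / c ≤ (C / c) ^ 3 := le_self_pow₀ hr (by norm_num)
    calc F P ≤ C / c * F N := h3
      _ ≤ (C / c) ^ 3 * F N := by gcongr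
      _ ≤ 4 * (C / c) ^ 3 * F N := by
          have : 0 ≤ (C / c) ^ 3 * F N := by positivity
          linarith
  · calc F (2 * P) ≤ 2 * (C / c) ^ 2 * F P := h6
      _ ≤ 2 * (C / c) ^ 2 * (C / c * F N) := by gcongr
      _ = 2 * (C / c) ^ 3 * F N := by ring
      _ ≤ 4 * (C / c) ^ 3 * F N := by
          have : 0 ≤ (C / c) ^ 3 * F N := by positivity
          linarith

/-- the bound with the exponent `ε` fails for the multiplier `θ` -/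
def Fails (f : ℕ → ℝ) (g F : ℝ → ℝ) (ε θ : ℝ) : Prop :=
  ¬ ∃ K : ℝ, ∀ N : ℝ, 2 ≤ N → ∀ N1 N2 : ℕ, N ≤ N1 → (N2 : ℝ) ≤ 2 * N →
    ‖∑ n ∈ Icc N1 N2, e (f n + θ * g n)‖ ≤ K * N ^ (1 / 2 : ℝ) * F N ^ ε

lemma io_of_fails (hc : 0 < c) (hF : ∀ N : ℝ, 2 ≤ N → N ≤ F N)
    (hs : ∀ N : ℝ, 2 ≤ N → ∀ x y : ℝ, x ∈ Set.Icc N (2 * N) → y ∈ Set.Icc N (2 * N) →
      c * F N / N * |y - x| ≤ |g y - g x| ∧ |g y - g x| ≤ C * F N / N * |y - x|)
    (f : ℕ → ℝ) (ε : ℝ) (hε : 0 < ε) (θ : ℝ) (h : Fails f g F ε θ) (i1 : ℕ) :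
    ∃ i : ℕ, i1 ≤ i ∧ PP f (fun n => g n) i θ (((2 : ℝ) ^ i) ^ (1 / 2 : ℝ) * F (2 ^ i) ^ ε) := by
  by_contra hcon
  push Not at hcon
  apply h
  have hcC := c_le_C hc hF hs
  have hr : 1 ≤ C / c := by rw [le_div_iff₀ hc]; linarith
  set Q : ℝ := 4 * (C / c) ^ 3 with hQ
  have hQ0 : 0 < Q := by positivity
  have hgood : ∀ i, i1 ≤ i → ∀ u v : ℕ, 2 ^ i ≤ u → v ≤ 2 ^ i + 2 ^ i →
      ‖∑ n ∈ Ico u v, e (f n + θ * g n)‖ ≤ ((2 : ℝ) ^ i) ^ (1 / 2 : ℝ) * F (2 ^ i) ^ ε := by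
    intro i hi u v hu hv
    by_contra hlt
    rw [not_le] at hlt
    exact hcon i hi ⟨u, v, hu, hv, hlt⟩
  refine ⟨2 * 2 ^ i1 + 3 * Q ^ ε, fun N hN N1 N2 h1 h2 => ?_⟩
  have hN0 : 0 < N := by linarith
  have hFN := hF N hN
  have hFN0 : 0 < F N := by linarith
  have hNr : 1 ≤ N ^ (1 / 2 : ℝ) := Real.one_le_rpow (by linarith) (by norm_num)
  have hFr : 1 ≤ F N ^ ε := Real.one_le_rpow (by linarith) hε.le
  have hQe : 0 < Q ^ ε := by positivity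
  have hcount : ‖∑ n ∈ Icc N1 N2, e (f n + θ * g n)‖ ≤ N + 1 := by
    refine (norm_sum_le _ _).trans ?_
    simp only [e_norm]
    rw [sum_const, Nat.card_Icc, nsmul_eq_mul, mul_one]
    rcases Nat.lt_or_ge (N2 + 1) N1 with h3 | h3
    · rw [Nat.sub_eq_zero_of_le h3.le, Nat.cast_zero]
      linarith
    · rw [Nat.cast_sub h3]
      push_cast
      linarith
  -- the dyadic scale of N
  set i := Nat.log 2 ⌊N⌋₊ with hi
  have hfl : ⌊N⌋₊ ≠ 0 := by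
    have : 1 ≤ ⌊N⌋₊ := Nat.le_floor (by push_cast; linarith)
    omega
  have hi1 : (2 : ℝ) ^ i ≤ N := by
    have h3 := Nat.pow_log_le_self 2 hfl
    have h4 : ((2 ^ i : ℕ) : ℝ) ≤ (⌊N⌋₊ : ℝ) := by exact_mod_cast h3
    push_cast at h4
    exact h4.trans (Nat.floor_le hN0.le)
  have hi2 : N < 2 * 2 ^ i := by
    have h3 := Nat.lt_pow_succ_log_self (b := 2) (by norm_num) ⌊N⌋₊
    have h4 : N < ((2 ^ (i + 1) : ℕ) : ℝ) := (Nat.floor_lt hN0.le).1 h3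
    push_cast at h4
    rw [pow_succ] at h4
    linarith
  have hi3 : 1 ≤ i := by
    by_contra h0
    have : i = 0 := by omega
    rw [this] at hi2
    norm_num at hi2
    linarith
  have hi4 : (2 : ℝ) ≤ 2 ^ i := by
    calc (2 : ℝ) = 2 ^ 1 := by norm_num
      _ ≤ 2 ^ i := pow_le_pow_right₀ (by norm_num) hi3
  rcases Nat.lt_or_ge i i1 with h3 | h3
  · have h4 : (2 : ℝ) ^ (i + 1) ≤ 2 ^ i1 := pow_le_pow_right₀ (by norm_num) h3
    rw [pow_succ] at h4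
    have h5 : N + 1 ≤ 2 * 2 ^ i1 := by linarith
    calc ‖∑ n ∈ Icc N1 N2, e (f n + θ * g n)‖ ≤ 2 * 2 ^ i1 := hcount.trans h5
      _ ≤ (2 * 2 ^ i1 + 3 * Q ^ ε) * 1 * 1 := by linarith
      _ ≤ (2 * 2 ^ i1 + 3 * Q ^ ε) * N ^ (1 / 2 : ℝ) * F N ^ ε := by gcongr
  · -- two dyadic blocks
    obtain ⟨hc1, hc2⟩ := comp2 hc hF hs (2 ^ i) N hi4 hi1 hi2
    rw [← hQ] at hc1 hc2
    have hFi : 0 < F (2 ^ i) := lt_of_lt_of_le (by positivity) (hF _ hi4)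
    have hFi1 : 0 < F (2 * 2 ^ i) := lt_of_lt_of_le (by positivity) (hF _ (by linarith))
    have ht1 : ((2 : ℝ) ^ i) ^ (1 / 2 : ℝ) * F (2 ^ i) ^ ε ≤ N ^ (1 / 2 : ℝ) * (Q ^ ε * F N ^ ε) := by
      rw [← Real.mul_rpow hQ0.le hFN0.le]
      gcongr
    have ht2 : ((2 : ℝ) ^ (i + 1)) ^ (1 / 2 : ℝ) * F (2 ^ (i + 1)) ^ ε ≤
        2 * (N ^ (1 / 2 : ℝ) * (Q ^ ε * F N ^ ε)) := by
      have e1 : (2 : ℝ) ^ (i + 1) = 2 * 2 ^ i := by rw [pow_succ]; ring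
      have h5 : ((2 : ℝ) * 2 ^ i) ^ (1 / 2 : ℝ) ≤ 2 * N ^ (1 / 2 : ℝ) := by
        rw [Real.mul_rpow (by norm_num) (by positivity)]
        have h6 : (2 : ℝ) ^ (1 / 2 : ℝ) ≤ 2 := by
          calc (2 : ℝ) ^ (1 / 2 : ℝ) ≤ 2 ^ (1 : ℝ) :=
                Real.rpow_le_rpow_of_exponent_le (by norm_num) (by norm_num)
            _ = 2 := Real.rpow_one 2
        gcongr
      rw [e1, ← Real.mul_rpow hQ0.le hFN0.le, ← mul_assoc]
      gcongr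
    have hblock : ‖∑ n ∈ Icc N1 N2, e (f n + θ * g n)‖ ≤
        ((2 : ℝ) ^ i) ^ (1 / 2 : ℝ) * F (2 ^ i) ^ ε +
          ((2 : ℝ) ^ (i + 1)) ^ (1 / 2 : ℝ) * F (2 ^ (i + 1)) ^ ε := by
      have hIco : Icc N1 N2 = Ico N1 (N2 + 1) := rfl
      have hp1 : 0 ≤ ((2 : ℝ) ^ i) ^ (1 / 2 : ℝ) * F (2 ^ i) ^ ε := by positivity
      have hp2 : 0 ≤ ((2 : ℝ) ^ (i + 1)) ^ (1 / 2 : ℝ) * F (2 ^ (i + 1)) ^ ε := by
        have : 0 < F (2 ^ (i + 1)) := by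
          rw [pow_succ, mul_comm]
          exact hFi1
        positivity
      have hN1 : 2 ^ i ≤ N1 := by
        have : ((2 ^ i : ℕ) : ℝ) ≤ N1 := by
          push_cast
          linarith
        exact_mod_cast this
      have hN2 : N2 + 1 ≤ 2 ^ (i + 1) + 2 ^ (i + 1) := by
        have : (N2 : ℝ) < ((2 ^ (i + 1) + 2 ^ (i + 1) : ℕ) : ℝ) := by
          push_cast
          rw [pow_succ]
          linarith
        have : N2 < 2 ^ (i + 1) + 2 ^ (i + 1) := by exact_mod_cast this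
        omega
      have hdb : 2 ^ i + 2 ^ i = 2 ^ (i + 1) := by rw [pow_succ]; ring
      rw [hIco]
      rcases Nat.lt_or_ge (2 ^ (i + 1)) (N2 + 1) with h5 | h5
      · rcases Nat.lt_or_ge N1 (2 ^ (i + 1)) with h6 | h6
        · rw [← sum_Ico_consecutive _ h6.le h5.le]
          refine (norm_add_le _ _).trans ?_
          have h7 := hgood i h3 N1 (2 ^ (i + 1)) hN1 (by omega)
          have h8 := hgood (i + 1) (by omega) (2 ^ (i + 1)) (N2 + 1) le_rfl hN2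
          linarith
        · have h8 := hgood (i + 1) (by omega) N1 (N2 + 1) h6 hN2
          linarith
      · have h7 := hgood i h3 N1 (N2 + 1) hN1 (by omega)
        linarith
    have hpos : 0 ≤ N ^ (1 / 2 : ℝ) * (Q ^ ε * F N ^ ε) := by positivity
    calc ‖∑ n ∈ Icc N1 N2, e (f n + θ * g n)‖ ≤
        3 * (N ^ (1 / 2 : ℝ) * (Q ^ ε * F N ^ ε)) := by linarith
      _ = (3 * Q ^ ε) * N ^ (1 / 2 : ℝ) * F N ^ ε := by ring
      _ ≤ (2 * 2 ^ i1 + 3 * Q ^ ε) * N ^ (1 / 2 : ℝ) * F N ^ ε := by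
          gcongr
          have : (0 : ℝ) ≤ 2 * 2 ^ i1 := by positivity
          linarith

theorem dim_fails (hc : 0 < c) (hF : ∀ N : ℝ, 2 ≤ N → N ≤ F N)
    (hs : ∀ N : ℝ, 2 ≤ N → ∀ x y : ℝ, x ∈ Set.Icc N (2 * N) → y ∈ Set.Icc N (2 * N) →
      c * F N / N * |y - x| ≤ |g y - g x| ∧ |g y - g x| ≤ C * F N / N * |y - x|)
    (f : ℕ → ℝ) (ε : ℝ) (hε : 0 < ε) :
    dimH {θ : ℝ | Fails f g F ε θ} ≤ ENNReal.ofReal (1 - 2 * ε) := by
  by_contra hcon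
  rw [not_le] at hcon
  obtain ⟨D, hD0, hD1, hD2⟩ := ENNReal.lt_iff_exists_real_btwn.1 hcon
  rw [ENNReal.ofReal_lt_ofReal_iff'] at hD1
  have key : ∀ R : ℕ, dimH {θ : ℝ | θ ∈ Set.Icc (-(R : ℝ)) R ∧ ∀ i1 : ℕ, ∃ i : ℕ, i1 ≤ i ∧
      PP f (fun n => g n) i θ (((2 : ℝ) ^ i) ^ (1 / 2 : ℝ) * F (2 ^ i) ^ ε)} ≤ ENNReal.ofReal D := by
    intro R
    have hi4 : ∀ i : ℕ, 1 ≤ i → (2 : ℝ) ≤ 2 ^ i := fun i hi => by
      calc (2 : ℝ) = 2 ^ 1 := by norm_num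
        _ ≤ 2 ^ i := pow_le_pow_right₀ (by norm_num) hi
    refine dim_mult f (fun n => g n) (fun i => F (2 ^ i)) c C hc 1
      (fun i hi => hF _ (hi4 i hi)) ?_ ?_ ε D R hε hD1.2 hD1.1 (Nat.cast_nonneg R)
    · intro i hi m n h1 h2 h3 h4
      have g1 : (2 : ℝ) ^ i ≤ m := by exact_mod_cast h1
      have g2 : (m : ℝ) ≤ 2 * 2 ^ i := by
        have : (m : ℝ) < ((2 ^ i + 2 ^ i : ℕ) : ℝ) := by exact_mod_cast h2
        push_cast at this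
        linarith
      have g3 : (2 : ℝ) ^ i ≤ n := by exact_mod_cast h3
      have g4 : (n : ℝ) ≤ 2 * 2 ^ i := by
        have : (n : ℝ) < ((2 ^ i + 2 ^ i : ℕ) : ℝ) := by exact_mod_cast h4
        push_cast at this
        linarith
      exact (hs _ (hi4 i hi) m n ⟨g1, g2⟩ ⟨g3, g4⟩).1
    · intro i hi n h3 h4
      have g3 : (2 : ℝ) ^ i ≤ n := by exact_mod_cast h3
      have g4 : (n : ℝ) + 1 ≤ 2 * 2 ^ i := by
        have : ((n + 1 : ℕ) : ℝ) ≤ ((2 ^ i + 2 ^ i : ℕ) : ℝ) := by exact_mod_cast h4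
        push_cast at this
        linarith
      have h5 := (hs _ (hi4 i hi) (n : ℝ) ((n + 1 : ℕ) : ℝ) ⟨g3, by linarith⟩
        ⟨by push_cast; linarith, by push_cast; exact g4⟩).2
      have h6 : |((n + 1 : ℕ) : ℝ) - n| = 1 := by
        push_cast
        rw [add_sub_cancel_left, abs_one]
      rw [h6, mul_one] at h5
      exact h5
  have hsub : {θ : ℝ | Fails f g F ε θ} ⊆ ⋃ R : ℕ, {θ : ℝ | θ ∈ Set.Icc (-(R : ℝ)) R ∧
      ∀ i1 : ℕ, ∃ i : ℕ, i1 ≤ i ∧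
      PP f (fun n => g n) i θ (((2 : ℝ) ^ i) ^ (1 / 2 : ℝ) * F (2 ^ i) ^ ε)} := by
    intro θ hθ
    rw [Set.mem_iUnion]
    obtain ⟨R, hR⟩ := exists_nat_ge |θ|
    refine ⟨R, abs_le.1 hR, fun i1 => io_of_fails hc hF hs f ε hε θ hθ i1⟩
  have h1 := (dimH_mono hsub).trans_eq (dimH_iUnion _)
  have h2 := h1.trans (iSup_le key)
  exact absurd hD2 (not_lt.2 h2)

end

end Pool.Agent.Q39.EP
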