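import Pool.Agent.Q39.RD.Cov

set_option autoImplicit false

/-!
# The Hausdorff dimension of an upper limit of sets of reals: persistence and measure
-/

namespace Pool.Agent.Q39.EP

open Finset MeasureTheory

/-- Hausdorff dimension of an upper limit of sets covered by few small sets (general scales) -/
theorem dim_limsup' {X : Type} [EMetricSpace X] [MeasurableSpace X] [BorelSpace X] (D q r : ℝ)
    (B : ℕ → Set X) (d : ℕ → ℝ) (hD : 0 < D) (hq0 : 0 < q) (hq : q < 1) (hr0 : 0 < r) (hr : r < 1)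
    (hcov : ∃ i0 : ℕ, ∀ i : ℕ, i0 ≤ i → 0 ≤ d i ∧ d i ≤ q ^ i ∧ ∃ S : Finset (Set X),
      (S.card : ℝ) * d i ^ D ≤ r ^ i ∧
      (∀ U ∈ S, Metric.ediam U ≤ ENNReal.ofReal (d i)) ∧ B i ⊆ ⋃ U ∈ S, U) :
    dimH {c : X | ∀ i1 : ℕ, ∃ i : ℕ, i1 ≤ i ∧ c ∈ B i} ≤ ENNReal.ofReal D := by
  classical
  obtain ⟨i0, hi0⟩ := hcov
  choose! hd0 hd1 S hS1 hS3 hS2 using hi0
  set E : Set X := {c : X | ∀ i1 : ℕ, ∃ i : ℕ, i1 ≤ i ∧ c ∈ B i} with hE
  have key : μH[D] E ≤ ENNReal.ofReal (1 / (1 - r)) := by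
    have h1 := Measure.hausdorffMeasure_le_liminf_tsum (X := X) (β := ℕ)
      (ι := fun n : ℕ => Σ i : ℕ, {U : Set X // U ∈ S (n + i0 + i)}) D E (l := Filter.atTop)
      (fun n : ℕ => ENNReal.ofReal (q ^ (n + i0))) (by
        have g1 : Filter.Tendsto (fun n : ℕ => q ^ (n + i0)) Filter.atTop (nhds 0) := by
          have g2 := tendsto_pow_atTop_nhds_zero_of_lt_one hq0.le hq
          exact (Filter.tendsto_add_atTop_iff_nat i0).mpr g2
        have g3 := ENNReal.tendsto_ofReal g1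
        rwa [ENNReal.ofReal_zero] at g3)
      (fun n v => v.2.1)
      (by
        apply Filter.Eventually.of_forall
        intro n v
        refine (hS3 (n + i0 + v.1) (by omega) v.2.1 v.2.2).trans ?_
        apply ENNReal.ofReal_le_ofReal
        refine (hd1 (n + i0 + v.1) (by omega)).trans ?_
        exact pow_le_pow_of_le_one hq0.le hq.le (by omega))
      (by
        apply Filter.Eventually.of_forall
        intro n c hc
        obtain ⟨i, hi1, hi2⟩ := hc (n + i0)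
        obtain ⟨m, rfl⟩ := Nat.exists_eq_add_of_le hi1
        have g1 := hS2 (n + i0 + m) (by omega) hi2
        rw [Set.mem_iUnion₂] at g1
        obtain ⟨x, hx, hx'⟩ := g1
        rw [Set.mem_iUnion]
        exact ⟨⟨m, ⟨x, hx⟩⟩, hx'⟩)
    refine h1.trans ?_
    apply Filter.liminf_le_of_le (f := Filter.atTop) (hf := by isBoundedDefault)
    intro b hb
    rw [Filter.eventually_atTop] at hb
    obtain ⟨n, hn⟩ := hb
    refine (hn n le_rfl).trans ?_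
    rw [ENNReal.tsum_sigma']
    have g1 : ∀ i : ℕ, ∑' x : {x : Set X // x ∈ S (n + i0 + i)},
        Metric.ediam (x.1) ^ D ≤ ENNReal.ofReal (r ^ i) := by
      intro i
      have g2 : ∀ x : {x : Set X // x ∈ S (n + i0 + i)},
          Metric.ediam (x.1) ^ D ≤ ENNReal.ofReal (d (n + i0 + i) ^ D) := by
        intro x
        refine (ENNReal.rpow_le_rpow (hS3 (n + i0 + i) (by omega) x.1 x.2) hD.le).trans ?_
        rw [ENNReal.ofReal_rpow_of_nonneg (hd0 _ (by omega)) hD.le]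
      refine (ENNReal.tsum_le_tsum g2).trans ?_
      rw [tsum_fintype, Finset.sum_const, Finset.card_univ, Fintype.card_coe, nsmul_eq_mul,
        ← ENNReal.ofReal_natCast, ← ENNReal.ofReal_mul (by positivity)]
      apply ENNReal.ofReal_le_ofReal
      refine (hS1 (n + i0 + i) (by omega)).trans ?_
      exact pow_le_pow_of_le_one hr0.le hr.le (by omega)
    refine (ENNReal.tsum_le_tsum g1).trans ?_
    have g4 : Summable (fun i : ℕ => r ^ i) := summable_geometric_of_lt_one hr0.le hr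
    rw [← ENNReal.ofReal_tsum_of_nonneg (fun i => by positivity) g4, tsum_geometric_of_lt_one hr0.le hr,
      one_div]
  have h2 : μH[((D.toNNReal : NNReal) : ℝ)] E ≠ ⊤ := by
    rw [Real.coe_toNNReal D hD.le]
    exact ne_top_of_le_ne_top ENNReal.ofReal_ne_top key
  exact dimH_le_of_hausdorffMeasure_ne_top h2

/-- If the property `P i` at the level `t i` holds on a set of small measure, and persists on
intervals of length `δ i` from the level `2 t i` to the level `t i`, then the upper limit has small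
dimension. -/
theorem dim_abs (P : ℕ → ℝ → ℝ → Prop) (t δ M : ℕ → ℝ) (R D q r : ℝ) (hD : 0 < D)
    (hq0 : 0 < q) (hq : q < 1) (hr0 : 0 < r) (hr : r < 1) (i0 : ℕ)
    (hδ0 : ∀ i, i0 ≤ i → 0 < δ i) (hδ : ∀ i, i0 ≤ i → δ i ≤ q ^ i)
    (hM : ∀ i, i0 ≤ i → 0 ≤ M i)
    (hmeas : ∀ i, i0 ≤ i → volume {θ : ℝ | θ ∈ Set.Icc (-R - 1) (R + 1) ∧ P i θ (t i)} ≤
      ENNReal.ofReal (M i))
    (hpers : ∀ i, i0 ≤ i → ∀ θ θ' : ℝ, |θ - θ'| ≤ δ i → P i θ (2 * t i) → P i θ' (t i))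
    (hsum : ∀ i, i0 ≤ i → M i / δ i * δ i ^ D ≤ r ^ i) :
    dimH {θ : ℝ | θ ∈ Set.Icc (-R) R ∧ ∀ i1 : ℕ, ∃ i : ℕ, i1 ≤ i ∧ P i θ (2 * t i)} ≤
      ENNReal.ofReal D := by
  classical
  set B : ℕ → Set ℝ := fun i => {θ : ℝ | θ ∈ Set.Icc (-R) R ∧ P i θ (2 * t i)} with hB
  have hsub : {θ : ℝ | θ ∈ Set.Icc (-R) R ∧ ∀ i1 : ℕ, ∃ i : ℕ, i1 ≤ i ∧ P i θ (2 * t i)} ⊆
      {θ : ℝ | ∀ i1 : ℕ, ∃ i : ℕ, i1 ≤ i ∧ θ ∈ B i} := by
    intro θ hθ i1
    obtain ⟨i, hi, hP⟩ := hθ.2 i1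
    exact ⟨i, hi, hθ.1, hP⟩
  refine (dimH_mono hsub).trans ?_
  refine dim_limsup' D q r B δ hD hq0 hq hr0 hr ⟨i0, fun i hi => ?_⟩
  have hd0 := hδ0 i hi
  have hd1 : δ i ≤ 1 := (hδ i hi).trans (pow_le_one₀ hq0.le hq.le)
  refine ⟨hd0.le, hδ i hi, ?_⟩
  -- the cells
  set K : Finset ℤ := (Finset.Icc ⌊(-R) / δ i⌋ ⌊R / δ i⌋).filter
    (fun m => ∃ θ ∈ B i, (m : ℝ) * δ i ≤ θ ∧ θ < ((m : ℝ) + 1) * δ i) with hK
  refine ⟨K.image fun m : ℤ => Set.Ico ((m : ℝ) * δ i) (((m : ℝ) + 1) * δ i), ?_, ?_, ?_⟩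
  · have h1 : (K.card : ℝ) ≤ M i / δ i := by
      refine Pool.Agent.Q39.RD.card_cells K
        {θ : ℝ | θ ∈ Set.Icc (-R - 1) (R + 1) ∧ P i θ (t i)} (δ i) (M i) hd0 (hM i hi) ?_
        (hmeas i hi)
      intro m hm θ' h1 h2
      rw [hK, mem_filter] at hm
      obtain ⟨θ, ⟨hθ, hP⟩, h3, h4⟩ := hm.2
      have h5 : |θ - θ'| ≤ δ i := by
        rw [abs_le]
        constructor <;> nlinarith
      refine ⟨?_, hpers i hi θ θ' h5 hP⟩
      rw [abs_le] at h5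
      rw [Set.mem_Icc] at hθ ⊢
      constructor <;> linarith [hθ.1, hθ.2]
    have h2 : ((K.image fun m : ℤ => Set.Ico ((m : ℝ) * δ i) (((m : ℝ) + 1) * δ i)).card : ℝ) ≤ K.card := by
      exact_mod_cast Finset.card_image_le
    calc ((K.image fun m : ℤ => Set.Ico ((m : ℝ) * δ i) (((m : ℝ) + 1) * δ i)).card : ℝ) * δ i ^ D ≤
        (M i / δ i) * δ i ^ D := by
          gcongr
          exact h2.trans h1
      _ ≤ r ^ i := hsum i hi
  · intro U hU
    rw [mem_image] at hU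
    obtain ⟨m, -, rfl⟩ := hU
    rw [Real.ediam_Ico]
    apply ENNReal.ofReal_le_ofReal
    linarith
  · intro θ hθ
    rw [Set.mem_iUnion₂]
    have h1 : (⌊θ / δ i⌋ : ℝ) * δ i ≤ θ := by
      have := Int.floor_le (θ / δ i)
      rwa [le_div_iff₀ hd0] at this
    have h2 : θ < ((⌊θ / δ i⌋ : ℝ) + 1) * δ i := by
      have := Int.lt_floor_add_one (θ / δ i)
      rwa [div_lt_iff₀ hd0] at this
    refine ⟨Set.Ico ((⌊θ / δ i⌋ : ℝ) * δ i) (((⌊θ / δ i⌋ : ℝ) + 1) * δ i), ?_, h1, h2⟩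
    rw [mem_image]
    refine ⟨⌊θ / δ i⌋, ?_, rfl⟩
    rw [hK, mem_filter, Finset.mem_Icc]
    refine ⟨⟨?_, ?_⟩, θ, hθ, h1, h2⟩
    · apply Int.floor_le_floor
      have := hθ.1.1
      gcongr
    · apply Int.floor_le_floor
      have := hθ.1.2
      gcongr

end Pool.Agent.Q39.EP
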