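import Pool.Agent.Q39.EP.Dim

set_option autoImplicit false

/-!
# Persistence and measure, for nonnegative parameters
-/

namespace Pool.Agent.Q39.EP

open Finset MeasureTheory

/-- If the property `P i` at the level `t i` holds on a set of small measure, and persists on
intervals of length `δ i` from the level `2 t i` to the level `t i`, then the upper limit has small
dimension. -/
theorem dim_abs0 (P : ℕ → ℝ → ℝ → Prop) (t T δ M : ℕ → ℝ) (R D q r : ℝ) (hD : 0 < D)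
    (hq0 : 0 < q) (hq : q < 1) (hr0 : 0 < r) (hr : r < 1) (i0 : ℕ)
    (hδ0 : ∀ i, i0 ≤ i → 0 < δ i) (hδ : ∀ i, i0 ≤ i → δ i ≤ q ^ i)
    (hM : ∀ i, i0 ≤ i → 0 ≤ M i)
    (hmeas : ∀ i, i0 ≤ i → volume {θ : ℝ | θ ∈ Set.Icc 0 (R + 1) ∧ P i θ (t i)} ≤
      ENNReal.ofReal (M i))
    (hpers : ∀ i, i0 ≤ i → ∀ θ θ' : ℝ, 0 ≤ θ → 0 ≤ θ' → θ ≤ R →
      |θ - θ'| ≤ δ i → P i θ (T i) → P i θ' (t i))
    (hsum : ∀ i, i0 ≤ i → M i / δ i * δ i ^ D ≤ r ^ i) :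
    dimH {θ : ℝ | θ ∈ Set.Icc 0 R ∧ ∀ i1 : ℕ, ∃ i : ℕ, i1 ≤ i ∧ P i θ (T i)} ≤
      ENNReal.ofReal D := by
  classical
  set B : ℕ → Set ℝ := fun i => {θ : ℝ | θ ∈ Set.Icc 0 R ∧ P i θ (T i)} with hB
  have hsub : {θ : ℝ | θ ∈ Set.Icc 0 R ∧ ∀ i1 : ℕ, ∃ i : ℕ, i1 ≤ i ∧ P i θ (T i)} ⊆
      {θ : ℝ | ∀ i1 : ℕ, ∃ i : ℕ, i1 ≤ i ∧ θ ∈ B i} := by
    intro θ hθ i1
    obtain ⟨i, hi, hP⟩ := hθ.2 i1
    exact ⟨i, hi, hθ.1, hP⟩
  refine (dimH_mono hsub).trans ?_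
  refine dim_limsup' D q r B δ hD hq0 hq hr0 hr ⟨i0, fun i hi => ?_⟩
  have hd0 := hδ0 i hi
  have hd1 : δ i ≤ 1 := (hδ i hi).trans (pow_le_one₀ hq0.le hq.le)
  refine ⟨hd0.le, hδ i hi, ?_⟩
  -- the cells
  set K : Finset ℤ := (Finset.Icc 0 ⌊R / δ i⌋).filter
    (fun m => ∃ θ ∈ B i, (m : ℝ) * δ i ≤ θ ∧ θ < ((m : ℝ) + 1) * δ i) with hK
  refine ⟨K.image fun m : ℤ => Set.Ico ((m : ℝ) * δ i) (((m : ℝ) + 1) * δ i), ?_, ?_, ?_⟩
  · have h1 : (K.card : ℝ) ≤ M i / δ i := by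
      refine Pool.Agent.Q39.RD.card_cells K
        {θ : ℝ | θ ∈ Set.Icc 0 (R + 1) ∧ P i θ (t i)} (δ i) (M i) hd0 (hM i hi) ?_
        (hmeas i hi)
      intro m hm θ' h1 h2
      rw [hK, mem_filter] at hm
      obtain ⟨θ, ⟨hθ, hP⟩, h3, h4⟩ := hm.2
      have h5 : |θ - θ'| ≤ δ i := by
        rw [abs_le]
        constructor <;> nlinarith
      have hm0 : (0 : ℝ) ≤ m := by exact_mod_cast (Finset.mem_Icc.1 hm.1).1
      have h6 : 0 ≤ θ' := le_trans (by positivity) h1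
      refine ⟨?_, hpers i hi θ θ' hθ.1 h6 hθ.2 h5 hP⟩
      rw [abs_le] at h5
      rw [Set.mem_Icc] at hθ ⊢
      constructor
      · exact h6
      · linarith [hθ.1, hθ.2]
    have h2 : ((K.image fun m : ℤ => Set.Ico ((m : ℝ) * δ i) (((m : ℝ) + 1) * δ i)).card : ℝ) ≤ K.card := by
      exact_mod_cast Finset.card_image_le
    calc ((K.image fun m : ℤ => Set.Ico ((m : ℝ) * δ i) (((m : ℝ) + 1) * δ i)).card : ℝ) * δ i ^ D ≤
        (M i / δ i) * δ i ^ D := by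
          gcongr
          exact h2.trans h1
      _ ≤ r ^ i := hsum i hi
  · intro U hU
    rw [mem_image] at hU
    obtain ⟨m, -, rfl⟩ := hU
    rw [Real.ediam_Ico]
    apply ENNReal.ofReal_le_ofReal
    linarith
  · intro θ hθ
    rw [Set.mem_iUnion₂]
    have h1 : (⌊θ / δ i⌋ : ℝ) * δ i ≤ θ := by
      have := Int.floor_le (θ / δ i)
      rwa [le_div_iff₀ hd0] at this
    have h2 : θ < ((⌊θ / δ i⌋ : ℝ) + 1) * δ i := by
      have := Int.lt_floor_add_one (θ / δ i)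
      rwa [div_lt_iff₀ hd0] at this
    refine ⟨Set.Ico ((⌊θ / δ i⌋ : ℝ) * δ i) (((⌊θ / δ i⌋ : ℝ) + 1) * δ i), ?_, h1, h2⟩
    rw [mem_image]
    refine ⟨⌊θ / δ i⌋, ?_, rfl⟩
    rw [hK, mem_filter, Finset.mem_Icc]
    refine ⟨⟨?_, ?_⟩, θ, hθ, h1, h2⟩
    · exact Int.floor_nonneg.2 (div_nonneg hθ.1.1 hd0.le)
    · apply Int.floor_le_floor
      have := hθ.1.2
      gcongr

end Pool.Agent.Q39.EP
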