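import Pool.Agent.Q39.EP.Perm

set_option autoImplicit false

/-!
# Even moments of exponential sums over all polynomial perturbations
-/

namespace Pool.Agent.Q39.EP

open Finset MeasureTheory

/-- `e(x) = exp(2πix)` -/
noncomputable def e (x : ℝ) : ℂ := Complex.exp (2 * (Real.pi : ℂ) * Complex.I * (x : ℂ))

lemma e_add (x y : ℝ) : e (x + y) = e x * e y := by
  unfold e
  rw [← Complex.exp_add]
  congr 1
  push_cast
  ring

lemma e_norm (x : ℝ) : ‖e x‖ = 1 := by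
  unfold e
  have : 2 * (Real.pi : ℂ) * Complex.I * (x : ℂ) = ((2 * Real.pi * x : ℝ) : ℂ) * Complex.I := by
    push_cast
    ring
  rw [this, Complex.norm_exp_ofReal_mul_I]

lemma e_conj (x : ℝ) : (starRingEnd ℂ) (e x) = e (-x) := by
  unfold e
  rw [← Complex.exp_conj]
  congr 1
  rw [map_mul, map_mul, map_mul, Complex.conj_ofReal, Complex.conj_I, Complex.conj_ofReal,
    Complex.conj_ofNat]
  push_cast
  ring

lemma e_sum {ι : Type*} (s : Finset ι) (f : ι → ℝ) : e (∑ i ∈ s, f i) = ∏ i ∈ s, e (f i) := by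
  classical
  induction s using Finset.induction_on with
  | empty => simp [e]
  | insert a s ha ih => rw [sum_insert ha, prod_insert ha, e_add, ih]

lemma e_cont : Continuous e := by
  unfold e
  fun_prop

/-- the polynomial phase `∑ α_j n^(j+1)` -/
noncomputable def ph {k : ℕ} (α : Fin k → ℝ) (n : ℕ) : ℝ := ∑ j, α j * (n : ℝ) ^ (j.val + 1)

/-- Lebesgue measure on the unit cube -/
noncomputable def mu (k : ℕ) : Measure (Fin k → ℝ) :=
  Measure.pi fun _ => volume.restrict (Set.Icc (0 : ℝ) 1)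

instance (k : ℕ) : IsFiniteMeasure (mu k) := by
  unfold mu
  infer_instance

lemma int_one (m : ℤ) : ∫ x in Set.Icc (0 : ℝ) 1, e (x * m) = if m = 0 then 1 else 0 := by
  split_ifs with h
  · subst h
    simp [e]
  · rw [integral_Icc_eq_integral_Ioc, ← intervalIntegral.integral_of_le zero_le_one]
    have hm : (m : ℂ) ≠ 0 := by exact_mod_cast h
    have hc : (2 * (Real.pi : ℂ) * Complex.I * m) ≠ 0 := by
      have := Real.pi_ne_zero
      simp [this, Complex.I_ne_zero, hm]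
    have h1 : ∀ x : ℝ, e (x * m) = Complex.exp ((2 * (Real.pi : ℂ) * Complex.I * m) * x) := by
      intro x
      unfold e
      congr 1
      push_cast
      ring
    simp_rw [h1]
    rw [integral_exp_mul_complex hc]
    have h2 : Complex.exp (2 * (Real.pi : ℂ) * Complex.I * m * (1 : ℝ)) = 1 := by
      rw [Complex.ofReal_one, mul_one, mul_comm]
      exact Complex.exp_int_mul_two_pi_mul_I m
    rw [h2]
    simp

lemma int_cube {k : ℕ} (m : Fin k → ℤ) :
    ∫ α, e (∑ j, α j * m j) ∂(mu k) = if m = 0 then 1 else 0 := by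
  simp_rw [e_sum]
  unfold mu
  rw [integral_fintype_prod_eq_prod (f := fun j x => e (x * m j))]
  simp_rw [int_one]
  split_ifs with h
  · subst h
    simp
  · obtain ⟨j, hj⟩ : ∃ j, m j ≠ 0 := by
      by_contra hcon
      push Not at hcon
      exact h (funext hcon)
    exact prod_eq_zero (mem_univ j) (by rw [if_neg hj])

lemma integrable_of {k : ℕ} {f : (Fin k → ℝ) → ℂ} (hf : Continuous f) {C : ℝ} (hC : ∀ α, ‖f α‖ ≤ C) :
    Integrable f (mu k) :=
  Integrable.of_bound hf.aestronglyMeasurable C (Filter.Eventually.of_forall hC)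

/-- the vector of power sums -/
def ps {k : ℕ} (x : Fin k → ℕ) (j : Fin k) : ℤ := ∑ i, (x i : ℤ) ^ (j.val + 1)

lemma sum_ph {k : ℕ} (α : Fin k → ℝ) (x : Fin k → ℕ) : ∑ i, ph α (x i) = ∑ j, α j * (ps x j : ℤ) := by
  unfold ph ps
  rw [sum_comm]
  refine sum_congr rfl fun j _ => ?_
  push_cast
  rw [mul_sum]

/-- the sum -/
noncomputable def S {k : ℕ} (c : ℕ → ℂ) (B : Finset ℕ) (α : Fin k → ℝ) : ℂ :=
  ∑ n ∈ B, c n * e (ph α n)

lemma ph_cont {k : ℕ} (n : ℕ) : Continuous fun α : Fin k → ℝ => ph α n := by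
  unfold ph
  fun_prop

lemma S_cont {k : ℕ} (c : ℕ → ℂ) (B : Finset ℕ) : Continuous (S (k := k) c B) := by
  unfold S
  exact continuous_finsetSum _ fun n _ => continuous_const.mul (e_cont.comp (ph_cont n))

lemma S_pow {k : ℕ} (c : ℕ → ℂ) (B : Finset ℕ) (α : Fin k → ℝ) :
    S c B α ^ k = ∑ x ∈ Fintype.piFinset (fun _ : Fin k => B),
      (∏ i, c (x i)) * e (∑ j, α j * (ps x j : ℤ)) := by
  have h1 : S c B α ^ k = ∏ _i : Fin k, ∑ n ∈ B, c n * e (ph α n) := by
    rw [prod_const, card_univ, Fintype.card_fin, S]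
  rw [h1, prod_univ_sum]
  refine sum_congr rfl fun x _ => ?_
  rw [prod_mul_distrib, ← e_sum, sum_ph]

theorem moment {k : ℕ} (c : ℕ → ℂ) (hc : ∀ n, ‖c n‖ ≤ 1) (B : Finset ℕ) :
    ∫ α, ‖S c B α‖ ^ (2 * k) ∂(mu k) ≤ k.factorial * (B.card : ℝ) ^ k := by
  classical
  set T := Fintype.piFinset (fun _ : Fin k => B) with hT
  have h1 : ∀ α : Fin k → ℝ, ((‖S c B α‖ ^ (2 * k) : ℝ) : ℂ) =
      ∑ p ∈ T ×ˢ T, (∏ i, c (p.1 i)) * (starRingEnd ℂ) (∏ i, c (p.2 i)) *
        e (∑ j, α j * ((ps p.1 j - ps p.2 j : ℤ) : ℝ)) := by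
    intro α
    have h2 : ((‖S c B α‖ ^ (2 * k) : ℝ) : ℂ) = S c B α ^ k * (starRingEnd ℂ) (S c B α ^ k) := by
      rw [Complex.mul_conj, Complex.normSq_eq_norm_sq, norm_pow, ← pow_mul, mul_comm k 2]
    rw [h2, S_pow, map_sum, sum_mul_sum, ← sum_product']
    refine sum_congr rfl fun p _ => ?_
    rw [map_mul, e_conj]
    have h3 : e (∑ j, α j * ((ps p.1 j - ps p.2 j : ℤ) : ℝ)) =
        e (∑ j, α j * (ps p.1 j : ℤ)) * e (-∑ j, α j * (ps p.2 j : ℤ)) := by
      rw [← e_add]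
      congr 1
      rw [← sub_eq_add_neg, ← sum_sub_distrib]
      refine sum_congr rfl fun j _ => ?_
      push_cast
      ring
    rw [h3]
    ring
  have h4 : ((∫ α, ‖S c B α‖ ^ (2 * k) ∂(mu k) : ℝ) : ℂ) =
      ∑ p ∈ T ×ˢ T, (∏ i, c (p.1 i)) * (starRingEnd ℂ) (∏ i, c (p.2 i)) *
        (if (fun j => ps p.1 j - ps p.2 j) = 0 then 1 else 0) := by
    rw [← integral_complex_ofReal]
    simp_rw [h1]
    rw [integral_finsetSum]
    · refine sum_congr rfl fun p _ => ?_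
      rw [integral_const_mul, int_cube (fun j => ps p.1 j - ps p.2 j)]
    · intro p _
      refine integrable_of (C := ‖(∏ i, c (p.1 i)) * (starRingEnd ℂ) (∏ i, c (p.2 i))‖) ?_ ?_
      · refine continuous_const.mul (e_cont.comp ?_)
        fun_prop
      · intro α
        rw [norm_mul, e_norm, mul_one]
  have h5 : ‖((∫ α, ‖S c B α‖ ^ (2 * k) ∂(mu k) : ℝ) : ℂ)‖ ≤
      (((T ×ˢ T).filter (fun p : (Fin k → ℕ) × (Fin k → ℕ) =>
        ∀ j : Fin k, ∑ i, p.1 i ^ (j.val + 1) = ∑ i, p.2 i ^ (j.val + 1))).card : ℝ) := by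
    rw [h4]
    refine (norm_sum_le _ _).trans ?_
    rw [← sum_filter_add_sum_filter_not (T ×ˢ T) (fun p : (Fin k → ℕ) × (Fin k → ℕ) =>
        ∀ j : Fin k, ∑ i, p.1 i ^ (j.val + 1) = ∑ i, p.2 i ^ (j.val + 1))]
    have h6 : ∀ x : Fin k → ℕ, ‖∏ i, c (x i)‖ ≤ 1 := by
      intro x
      rw [norm_prod]
      exact prod_le_one (fun i _ => norm_nonneg _) (fun i _ => hc _)
    have h7 : ∑ p ∈ (T ×ˢ T) with ¬ ∀ j : Fin k,
        ∑ i, p.1 i ^ (j.val + 1) = ∑ i, p.2 i ^ (j.val + 1),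
        ‖(∏ i, c (p.1 i)) * (starRingEnd ℂ) (∏ i, c (p.2 i)) *
        (if (fun j => ps p.1 j - ps p.2 j) = 0 then (1 : ℂ) else 0)‖ = 0 := by
      refine sum_eq_zero fun p hp => ?_
      rw [mem_filter] at hp
      rw [if_neg, mul_zero, norm_zero]
      intro h
      apply hp.2
      intro j
      have h8 := congrFun h j
      simp only [Pi.zero_apply, ps] at h8
      have h9 := sub_eq_zero.1 h8
      exact_mod_cast h9
    rw [h7, add_zero, card_eq_sum_ones, Nat.cast_sum]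
    refine sum_le_sum fun p _ => ?_
    rw [norm_mul, norm_mul, RCLike.norm_conj]
    have h8 : ‖(if (fun j => ps p.1 j - ps p.2 j) = 0 then (1 : ℂ) else 0)‖ ≤ 1 := by
      split_ifs <;> simp
    calc ‖∏ i, c (p.1 i)‖ * ‖∏ i, c (p.2 i)‖ *
        ‖(if (fun j => ps p.1 j - ps p.2 j) = 0 then (1 : ℂ) else 0)‖ ≤ 1 * 1 * 1 := by
          gcongr
          · exact h6 _
          · exact h6 _
      _ = ((1 : ℕ) : ℝ) := by norm_num
  have h10 := card_diag k B
  have h11 : ((((T ×ˢ T).filter (fun p : (Fin k → ℕ) × (Fin k → ℕ) =>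
        ∀ j : Fin k, ∑ i, p.1 i ^ (j.val + 1) = ∑ i, p.2 i ^ (j.val + 1))).card : ℕ) : ℝ) ≤
      k.factorial * (B.card : ℝ) ^ k := by exact_mod_cast h10
  have h12 : (∫ α, ‖S c B α‖ ^ (2 * k) ∂(mu k)) ≤ ‖((∫ α, ‖S c B α‖ ^ (2 * k) ∂(mu k) : ℝ) : ℂ)‖ := by
    rw [Complex.norm_real]
    exact le_abs_self _
  linarith

end Pool.Agent.Q39.EP
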