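import Pool.Agent.Q39.EP.Mom
import Pool.Agent.Q39.EP.Chain
import Pool.Agent.Q39.EP.Dim

set_option autoImplicit false

/-!
# Mean squares over multipliers, maximal inequality, persistence
-/

namespace Pool.Agent.Q39.EP

open Finset MeasureTheory

/-! ### Partial summation -/

lemma abel_id (x y : ℕ → ℂ) (u v : ℕ) (h : u ≤ v) :
    ∑ n ∈ Ico u v, x n * y n = x v * ∑ n ∈ Ico u v, y n -
      ∑ n ∈ Ico u v, (x (n + 1) - x n) * ∑ m ∈ Ico u (n + 1), y m := by
  induction v, h using Nat.le_induction with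
  | base => simp
  | succ v hv ih =>
    rw [sum_Ico_succ_top hv, ih, sum_Ico_succ_top hv (fun n => (x (n + 1) - x n) * ∑ m ∈ Ico u (n + 1), y m),
      sum_Ico_succ_top hv y]
    ring

lemma abel_le (x y : ℕ → ℂ) (u v : ℕ) (t W : ℝ) (hx : ∀ n, ‖x n‖ ≤ 1)
    (hy : ∀ n, n ≤ v → ‖∑ m ∈ Ico u n, y m‖ ≤ t)
    (hW : ∑ n ∈ Ico u v, ‖x (n + 1) - x n‖ ≤ W) : ‖∑ n ∈ Ico u v, x n * y n‖ ≤ (1 + W) * t := by
  have ht : 0 ≤ t := (norm_nonneg _).trans (hy 0 (Nat.zero_le _))
  have hW0 : 0 ≤ W := (sum_nonneg fun n _ => norm_nonneg _).trans hW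
  rcases Nat.lt_or_ge v u with h | h
  · rw [Ico_eq_empty (by omega), sum_empty, norm_zero]
    positivity
  · rw [abel_id x y u v h]
    refine (norm_sub_le _ _).trans ?_
    have h1 : ‖x v * ∑ n ∈ Ico u v, y n‖ ≤ t := by
      rw [norm_mul]
      calc ‖x v‖ * ‖∑ n ∈ Ico u v, y n‖ ≤ 1 * t := by
            gcongr
            · exact hx v
            · exact hy v le_rfl
        _ = t := one_mul t
    have h2 : ‖∑ n ∈ Ico u v, (x (n + 1) - x n) * ∑ m ∈ Ico u (n + 1), y m‖ ≤ W * t := by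
      refine (norm_sum_le _ _).trans ?_
      calc ∑ n ∈ Ico u v, ‖(x (n + 1) - x n) * ∑ m ∈ Ico u (n + 1), y m‖ ≤
          ∑ n ∈ Ico u v, ‖x (n + 1) - x n‖ * t := by
            refine sum_le_sum fun n hn => ?_
            rw [mem_Ico] at hn
            rw [norm_mul]
            gcongr
            exact hy (n + 1) (by omega)
        _ = (∑ n ∈ Ico u v, ‖x (n + 1) - x n‖) * t := by rw [sum_mul]
        _ ≤ W * t := by gcongr
    linarith

lemma e_lip (x y : ℝ) : ‖e x - e y‖ ≤ 2 * Real.pi * |x - y| := by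
  have h1 : e x - e y = e y * (e (x - y) - 1) := by
    rw [mul_sub, ← e_add, mul_one]
    congr 2
    ring
  rw [h1, norm_mul, e_norm, one_mul]
  have h2 : e (x - y) = Complex.exp (Complex.I * ((2 * Real.pi * (x - y) : ℝ) : ℂ)) := by
    unfold e
    congr 1
    push_cast
    ring
  rw [h2]
  refine (Real.norm_exp_I_mul_ofReal_sub_one_le (x := 2 * Real.pi * (x - y))).trans ?_
  rw [Real.norm_eq_abs, abs_mul, abs_of_nonneg (by positivity)]

/-! ### Chaining, exponent two -/

theorem chain2 {Ω : Type*} [MeasurableSpace Ω] (μ : Measure Ω) (z : ℕ → Ω → ℂ)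
    (A : ℝ) (hA : 0 ≤ A) (b J : ℕ)
    (h : ∀ l ≤ J, ∀ j < 2 ^ (J - l), ∀ t : ℝ, 0 < t →
      μ {ω | t ≤ ‖∑ n ∈ Ico (b + j * 2 ^ l) (b + j * 2 ^ l + 2 ^ l), z n ω‖} ≤
      ENNReal.ofReal (A * 2 ^ l / t ^ 2))
    (lam : ℝ) (hl : 0 < lam) :
    μ {ω | ∃ u v : ℕ, b ≤ u ∧ v ≤ b + 2 ^ J ∧ lam < ‖∑ n ∈ Ico u v, z n ω‖} ≤
      ENNReal.ofReal (4 * A * (J + 1) ^ 3 * 2 ^ J / lam ^ 2) := by
  set t : ℝ := lam / (2 * (J + 1)) with ht
  have ht0 : 0 < t := by rw [ht]; positivity
  have hsub : {ω | ∃ u v : ℕ, b ≤ u ∧ v ≤ b + 2 ^ J ∧ lam < ‖∑ n ∈ Ico u v, z n ω‖} ⊆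
      ⋃ l ∈ range (J + 1), ⋃ j ∈ range (2 ^ (J - l)),
        {ω | t ≤ ‖∑ n ∈ Ico (b + j * 2 ^ l) (b + j * 2 ^ l + 2 ^ l), z n ω‖} := by
    intro ω hω
    obtain ⟨u, v, hu, hv, hlt⟩ := hω
    by_contra hcon
    simp only [Set.mem_iUnion, mem_range, Set.mem_ofPred_eq, exists_prop, not_exists, not_and,
      not_le] at hcon
    have h1 := interval_le (fun n => z n ω) b J (fun _ => t) (fun l => ht0.le)
      (fun l hl j hj => (hcon l (by omega) j hj).le) u v hu hv
    rw [sum_const, card_range, nsmul_eq_mul] at h1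
    push_cast at h1
    have h2 : 2 * (((J : ℝ) + 1) * t) = lam := by rw [ht]; field_simp
    linarith
  refine (measure_mono hsub).trans ?_
  have h1 : μ (⋃ l ∈ range (J + 1), ⋃ j ∈ range (2 ^ (J - l)),
        {ω | t ≤ ‖∑ n ∈ Ico (b + j * 2 ^ l) (b + j * 2 ^ l + 2 ^ l), z n ω‖}) ≤
      ∑ l ∈ range (J + 1), ∑ j ∈ range (2 ^ (J - l)), ENNReal.ofReal (A * 2 ^ l / t ^ 2) := by
    refine (measure_biUnion_finset_le _ _).trans (sum_le_sum fun l hl => ?_)
    refine (measure_biUnion_finset_le _ _).trans (sum_le_sum fun j hj => ?_)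
    rw [mem_range] at hl hj
    exact h l (by omega) j hj t ht0
  refine h1.trans ?_
  have h2 : ∑ l ∈ range (J + 1), ∑ j ∈ range (2 ^ (J - l)), ENNReal.ofReal (A * 2 ^ l / t ^ 2) =
      ENNReal.ofReal (∑ l ∈ range (J + 1), (2 : ℝ) ^ (J - l) * (A * 2 ^ l / t ^ 2)) := by
    rw [ENNReal.ofReal_sum_of_nonneg]
    · refine sum_congr rfl fun l _ => ?_
      rw [sum_const, card_range, nsmul_eq_mul, ENNReal.ofReal_mul (by positivity)]
      congr 1
      rw [ENNReal.ofReal_pow (by norm_num)]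
      simp
    · intro l _
      positivity
  rw [h2]
  apply ENNReal.ofReal_le_ofReal
  have h3 : ∀ l ∈ range (J + 1), (2 : ℝ) ^ (J - l) * (A * 2 ^ l / t ^ 2) = A * 2 ^ J / t ^ 2 := by
    intro l hl
    rw [mem_range] at hl
    have : (2 : ℝ) ^ J = 2 ^ (J - l) * 2 ^ l := by rw [← pow_add, Nat.sub_add_cancel (by omega)]
    rw [this]
    ring
  rw [sum_congr rfl h3, sum_const, card_range, nsmul_eq_mul]
  push_cast
  apply le_of_eq
  rw [ht]
  field_simp
  ring

/-! ### The mean square -/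

lemma osc (A B x : ℝ) (hx : x ≠ 0) : ‖∫ θ in A..B, e (θ * x)‖ ≤ 1 / (Real.pi * |x|) := by
  have hc : (2 * (Real.pi : ℂ) * Complex.I * x) ≠ 0 := by
    have := Real.pi_ne_zero
    simp [this, Complex.I_ne_zero, hx]
  have h1 : ∀ θ : ℝ, e (θ * x) = Complex.exp ((2 * (Real.pi : ℂ) * Complex.I * x) * θ) := by
    intro θ
    unfold e
    congr 1
    push_cast
    ring
  simp_rw [h1]
  rw [integral_exp_mul_complex hc, norm_div]
  have h2 : ‖2 * (Real.pi : ℂ) * Complex.I * x‖ = 2 * Real.pi * |x| := by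
    rw [norm_mul, norm_mul, norm_mul, Complex.norm_I, Complex.norm_real, Complex.norm_real,
      Real.norm_eq_abs, Real.norm_eq_abs, abs_of_pos Real.pi_pos]
    simp
  rw [h2]
  have h3 : ‖Complex.exp (2 * (Real.pi : ℂ) * Complex.I * x * B) -
      Complex.exp (2 * (Real.pi : ℂ) * Complex.I * x * A)‖ ≤ 2 := by
    rw [← h1, ← h1]
    refine (norm_sub_le _ _).trans ?_
    rw [e_norm, e_norm]
    norm_num
  have hpx : 0 < Real.pi * |x| := mul_pos Real.pi_pos (abs_pos.2 hx)
  rw [div_le_div_iff₀ (by linarith) hpx]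
  nlinarith

/-- harmonic sum -/
noncomputable def hs (M : ℕ) : ℝ := ∑ i ∈ range M, 1 / ((i : ℝ) + 1)

lemma hs_pow (l : ℕ) : hs (2 ^ l) ≤ l + 1 := by
  unfold hs
  induction l with
  | zero => simp
  | succ l ih =>
    have e : ∑ i ∈ range (2 ^ (l + 1)), 1 / ((i : ℝ) + 1) = ∑ i ∈ range (2 ^ l), 1 / ((i : ℝ) + 1) +
        ∑ i ∈ range (2 ^ l), 1 / (((2 ^ l + i : ℕ) : ℝ) + 1) := by
      rw [pow_succ, mul_two, sum_range_add]
    have h2 : ∑ i ∈ range (2 ^ l), 1 / (((2 ^ l + i : ℕ) : ℝ) + 1) ≤ 1 := by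
      calc ∑ i ∈ range (2 ^ l), 1 / (((2 ^ l + i : ℕ) : ℝ) + 1) ≤
          ∑ i ∈ range (2 ^ l), 1 / ((2 : ℝ) ^ l) := by
            refine sum_le_sum fun i _ => ?_
            apply one_div_le_one_div_of_le (by positivity)
            push_cast
            have : (0 : ℝ) ≤ i := Nat.cast_nonneg i
            linarith
        _ = 1 := by
            rw [sum_const, card_range, nsmul_eq_mul]
            push_cast
            field_simp
    rw [e]
    have h4 : ((l + 1 : ℕ) : ℝ) = l + 1 := by push_cast; rfl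
    rw [h4]
    linarith

lemma sum_inv (a M m : ℕ) (hm : m ∈ Ico a (a + M)) :
    ∑ n ∈ (Ico a (a + M)).erase m, 1 / |(n : ℝ) - m| ≤ 2 * hs M := by
  rw [mem_Ico] at hm
  have h1 : (Ico a (a + M)).erase m = Ico a m ∪ Ico (m + 1) (a + M) := by
    ext n
    simp only [mem_erase, mem_union, mem_Ico]
    omega
  have h2 : Disjoint (Ico a m) (Ico (m + 1) (a + M)) := by
    rw [Finset.disjoint_left]
    intro n h3 h4
    rw [mem_Ico] at h3 h4
    omega
  rw [h1, sum_union h2]
  have hsm : ∀ K : ℕ, K ≤ M → ∑ i ∈ range K, 1 / ((i : ℝ) + 1) ≤ hs M := by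
    intro K hK
    unfold hs
    exact sum_le_sum_of_subset_of_nonneg (range_subset_range.2 hK) (fun i _ _ => by positivity)
  have h3 : ∑ n ∈ Ico a m, 1 / |(n : ℝ) - m| = ∑ i ∈ range (m - a), 1 / ((i : ℝ) + 1) := by
    rw [← sum_range_reflect, sum_Ico_eq_sum_range]
    refine sum_congr rfl fun i hi => ?_
    rw [mem_range] at hi
    congr 1
    have h4 : ((a + i : ℕ) : ℝ) - m = -(((m - a - 1 - i : ℕ) : ℝ) + 1) := by
      have : (m : ℝ) = ((a + i + (m - a - 1 - i) + 1 : ℕ) : ℝ) := by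
        congr 1
        omega
      rw [this]
      push_cast
      ring
    rw [h4, abs_neg, abs_of_nonneg (by positivity)]
  have h4 : ∑ n ∈ Ico (m + 1) (a + M), 1 / |(n : ℝ) - m| =
      ∑ i ∈ range (a + M - (m + 1)), 1 / ((i : ℝ) + 1) := by
    rw [sum_Ico_eq_sum_range]
    refine sum_congr rfl fun i hi => ?_
    congr 1
    push_cast
    rw [abs_of_nonneg (by linarith [(Nat.cast_nonneg i : (0 : ℝ) ≤ i)])]
    ring
  rw [h3, h4]
  have h5 := hsm (m - a) (by omega)
  have h6 := hsm (a + M - (m + 1)) (by omega)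
  linarith

theorem mean_sq (c : ℕ → ℂ) (hc : ∀ n, ‖c n‖ ≤ 1) (g : ℕ → ℝ) (a M : ℕ) (w : ℝ) (hw : 0 < w)
    (hg : ∀ m n, m ∈ Ico a (a + M) → n ∈ Ico a (a + M) → m ≠ n → w * |(n : ℝ) - m| ≤ |g n - g m|)
    (A B : ℝ) (hAB : A ≤ B) :
    ∫ θ in A..B, ‖∑ n ∈ Ico a (a + M), c n * e (θ * g n)‖ ^ 2 ≤ M * ((B - A) + 2 * hs M / w) := by
  classical
  set I := Ico a (a + M) with hI
  have hcont : ∀ x : ℝ, Continuous fun θ : ℝ => e (θ * x) := fun x => e_cont.comp (by fun_prop)
  have h1 : ∀ θ : ℝ, ((‖∑ n ∈ I, c n * e (θ * g n)‖ ^ 2 : ℝ) : ℂ) =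
      ∑ m ∈ I, ∑ n ∈ I, c m * (starRingEnd ℂ) (c n) * e (θ * (g m - g n)) := by
    intro θ
    have h2 : ((‖∑ n ∈ I, c n * e (θ * g n)‖ ^ 2 : ℝ) : ℂ) =
        (∑ n ∈ I, c n * e (θ * g n)) * (starRingEnd ℂ) (∑ n ∈ I, c n * e (θ * g n)) := by
      rw [Complex.mul_conj, Complex.normSq_eq_norm_sq]
    rw [h2, map_sum, sum_mul_sum]
    refine sum_congr rfl fun m _ => sum_congr rfl fun n _ => ?_
    rw [map_mul, e_conj]
    have h3 : e (θ * (g m - g n)) = e (θ * g m) * e (-(θ * g n)) := by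
      rw [← e_add]
      congr 1
      ring
    rw [h3]
    ring
  have h4 : ((∫ θ in A..B, ‖∑ n ∈ I, c n * e (θ * g n)‖ ^ 2 : ℝ) : ℂ) =
      ∑ m ∈ I, ∑ n ∈ I, c m * (starRingEnd ℂ) (c n) * ∫ θ in A..B, e (θ * (g m - g n)) := by
    rw [← intervalIntegral.integral_ofReal]
    simp_rw [h1]
    rw [intervalIntegral.integral_finsetSum]
    · refine sum_congr rfl fun m _ => ?_
      rw [intervalIntegral.integral_finsetSum]
      · refine sum_congr rfl fun n _ => ?_
        rw [intervalIntegral.integral_const_mul]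
      · intro n _
        exact (continuous_const.mul (hcont _)).intervalIntegrable _ _
    · intro m _
      exact (continuous_finsetSum _ fun n _ => continuous_const.mul (hcont _)).intervalIntegrable _ _
  have h5 : ‖((∫ θ in A..B, ‖∑ n ∈ I, c n * e (θ * g n)‖ ^ 2 : ℝ) : ℂ)‖ ≤
      M * ((B - A) + 2 * hs M / w) := by
    rw [h4]
    refine (norm_sum_le _ _).trans ?_
    have h6 : ∀ m ∈ I, ‖∑ n ∈ I, c m * (starRingEnd ℂ) (c n) * ∫ θ in A..B, e (θ * (g m - g n))‖ ≤
        (B - A) + 2 * hs M / w := by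
      intro m hm
      refine (norm_sum_le _ _).trans ?_
      rw [← add_sum_erase I _ hm]
      have hcc : ∀ n, ‖c m * (starRingEnd ℂ) (c n)‖ ≤ 1 := by
        intro n
        rw [norm_mul, RCLike.norm_conj]
        exact mul_le_one₀ (hc m) (norm_nonneg _) (hc n)
      have h7 : ‖c m * (starRingEnd ℂ) (c m) * ∫ θ in A..B, e (θ * (g m - g m))‖ ≤ B - A := by
        rw [norm_mul]
        have h8 : ‖∫ θ in A..B, e (θ * (g m - g m))‖ ≤ 1 * |B - A| :=
          intervalIntegral.norm_integral_le_of_norm_le_const fun θ _ => (e_norm _).le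
        rw [abs_of_nonneg (by linarith), one_mul] at h8
        calc ‖c m * (starRingEnd ℂ) (c m)‖ * ‖∫ θ in A..B, e (θ * (g m - g m))‖ ≤ 1 * (B - A) := by
              gcongr
              exact hcc m
          _ = B - A := one_mul _
      have h8 : ∑ n ∈ I.erase m, ‖c m * (starRingEnd ℂ) (c n) * ∫ θ in A..B, e (θ * (g m - g n))‖ ≤
          2 * hs M / w := by
        calc ∑ n ∈ I.erase m, ‖c m * (starRingEnd ℂ) (c n) * ∫ θ in A..B, e (θ * (g m - g n))‖ ≤
            ∑ n ∈ I.erase m, (1 / |(n : ℝ) - m|) / w := by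
              refine sum_le_sum fun n hn => ?_
              rw [mem_erase] at hn
              have h9 := hg n m hn.2 hm hn.1
              have h10 : 0 < |(m : ℝ) - n| := by
                rw [abs_pos, sub_ne_zero]
                exact_mod_cast hn.1.symm
              have h11 : g m - g n ≠ 0 := by
                intro h0
                rw [h0, abs_zero] at h9
                have : 0 < w * |(m : ℝ) - n| := by positivity
                linarith
              rw [norm_mul]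
              calc ‖c m * (starRingEnd ℂ) (c n)‖ * ‖∫ θ in A..B, e (θ * (g m - g n))‖ ≤
                  1 * (1 / (Real.pi * |g m - g n|)) := by
                    gcongr
                    · exact hcc n
                    · exact osc A B _ h11
                _ ≤ (1 / |(n : ℝ) - m|) / w := by
                    rw [one_mul, div_div, abs_sub_comm (n : ℝ) m]
                    apply one_div_le_one_div_of_le (by positivity)
                    have h12 : |g m - g n| ≤ Real.pi * |g m - g n| := by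
                      have := Real.pi_gt_three
                      have := abs_nonneg (g m - g n)
                      nlinarith
                    rw [mul_comm]
                    exact h9.trans h12
          _ = (∑ n ∈ I.erase m, 1 / |(n : ℝ) - m|) / w := by rw [sum_div]
          _ ≤ 2 * hs M / w := by
              gcongr
              exact sum_inv a M m hm
      linarith
    refine (sum_le_sum h6).trans ?_
    rw [sum_const, nsmul_eq_mul, hI, Nat.card_Ico, Nat.add_sub_cancel_left]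
  rw [Complex.norm_real] at h5
  exact (le_abs_self _).trans h5

end Pool.Agent.Q39.EP
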