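import Pool.Agent.W346.PV.Newt

set_option autoImplicit false

/-!
# Equal power sums: the diagonal solutions
-/

namespace Pool.Agent.Q39.EP

open Finset Polynomial

lemma perm_of_map {k : ℕ} (x y : Fin k → ℕ)
    (h : (univ.val.map x : Multiset ℕ) = univ.val.map y) : ∃ σ : Equiv.Perm (Fin k), y = x ∘ σ := by
  have h1 : (List.ofFn x).Perm (List.ofFn y) := by
    rw [← Multiset.coe_eq_coe, ← Fin.univ_val_map, ← Fin.univ_val_map]
    exact h
  have h2 : (List.ofFn (x ∘ Tuple.sort x)).Perm (List.ofFn (y ∘ Tuple.sort y)) :=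
    ((Equiv.Perm.ofFn_comp_perm (Tuple.sort x) x).trans h1).trans
      (Equiv.Perm.ofFn_comp_perm (Tuple.sort y) y).symm
  have h3 : x ∘ Tuple.sort x = y ∘ Tuple.sort y :=
    List.ofFn_injective (h2.eq_of_pairwise' (Tuple.monotone_sort x).sortedLE_ofFn.pairwise
      (Tuple.monotone_sort y).sortedLE_ofFn.pairwise)
  refine ⟨Tuple.sort x * (Tuple.sort y)⁻¹, ?_⟩
  funext i
  have h4 := congrFun h3 ((Tuple.sort y)⁻¹ i)
  have h5 : (Tuple.sort y) ((Tuple.sort y)⁻¹ i) = i := Equiv.apply_symm_apply _ _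
  simp only [Function.comp_apply, Equiv.Perm.coe_mul] at h4 ⊢
  rw [h5] at h4
  exact h4.symm

lemma perm_of_psum {k : ℕ} (x y : Fin k → ℕ)
    (h : ∀ j : Fin k, ∑ i, x i ^ (j.val + 1) = ∑ i, y i ^ (j.val + 1)) :
    ∃ σ : Equiv.Perm (Fin k), y = x ∘ σ := by
  have h1 := Pool.Agent.W346.PV.Newt.main k k x y h
  rw [Nat.sub_self, Nat.cast_zero] at h1
  have h2 := sub_eq_zero.1 (degree_eq_bot.mp (Nat.WithBot.lt_zero_iff.mp h1))
  have h3 : ∀ z : Fin k → ℕ, (∏ i, ((X : ℤ[X]) - C (z i : ℤ))).roots =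
      (univ.val.map z : Multiset ℕ).map (fun n : ℕ => (n : ℤ)) := by
    intro z
    have h4 := Polynomial.roots_multiset_prod_X_sub_C
      ((univ.val.map z : Multiset ℕ).map (fun n : ℕ => (n : ℤ)))
    rw [Multiset.map_map, Multiset.map_map] at h4
    exact h4
  have h5 := congrArg Polynomial.roots h2
  rw [h3, h3] at h5
  exact perm_of_map x y (Multiset.map_injective Nat.cast_injective h5)

/-- The number of the pairs of `k`-tuples with equal power sums up to `k`. -/
lemma card_diag (k : ℕ) (B : Finset ℕ) :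
    (((Fintype.piFinset fun _ : Fin k => B) ×ˢ (Fintype.piFinset fun _ : Fin k => B)).filter
      (fun p : (Fin k → ℕ) × (Fin k → ℕ) =>
        ∀ j : Fin k, ∑ i, p.1 i ^ (j.val + 1) = ∑ i, p.2 i ^ (j.val + 1))).card ≤
      k.factorial * B.card ^ k := by
  classical
  have h1 : ((Fintype.piFinset fun _ : Fin k => B) ×ˢ (Fintype.piFinset fun _ : Fin k => B)).filter
      (fun p : (Fin k → ℕ) × (Fin k → ℕ) =>
        ∀ j : Fin k, ∑ i, p.1 i ^ (j.val + 1) = ∑ i, p.2 i ^ (j.val + 1)) ⊆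
      ((Fintype.piFinset fun _ : Fin k => B) ×ˢ (univ : Finset (Equiv.Perm (Fin k)))).image
        (fun q => (q.1, q.1 ∘ q.2)) := by
    intro p hp
    rw [mem_filter, mem_product] at hp
    obtain ⟨σ, hσ⟩ := perm_of_psum p.1 p.2 hp.2
    rw [mem_image]
    exact ⟨(p.1, σ), mem_product.2 ⟨hp.1.1, mem_univ _⟩, by rw [← hσ]⟩
  refine (card_le_card h1).trans (card_image_le.trans ?_)
  rw [card_product, Fintype.card_piFinset, card_univ, Fintype.card_perm, Fintype.card_fin,
    prod_const, card_univ, Fintype.card_fin, mul_comm]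

end Pool.Agent.Q39.EP
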