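import Pool.Agent.Q39.EP.Dim0
import Pool.Agent.Q39.EP.DilFinal
import Pool.Agent.Y933.KI.General

set_option autoImplicit false

/-!
# Translates: the dimension of the exceptional set
-/

namespace Pool.Agent.Q39.EP

open Finset MeasureTheory

/-- at scale `i` some sum of `e(f(n+u) + r(n))` with `2^i ≤ n`, `n + u ≤ 2^(i+1)` is larger than `t` -/
def TT (f : ℝ → ℝ) (r : ℕ → ℝ) (i : ℕ) (u t : ℝ) : Prop :=
  ∃ N1 N2 : ℕ, (2 : ℝ) ^ i ≤ N1 ∧ (N2 : ℝ) + u ≤ 2 * 2 ^ i ∧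
    t < ‖∑ n ∈ Icc N1 N2, e (f ((n : ℝ) + u) + r n)‖

/-- the derivative of an admissible function is Lipschitz -/
lemma lip_of_adm {c C : ℕ → ℝ} {N F : ℝ} {g : ℝ → ℝ} (h : Adm c C N F g) (hN : 0 < N) :
    ∃ g' : ℝ → ℝ, (∀ x ∈ Set.Ioo N (2 * N), HasDerivAt g (g' x) x) ∧
      ∀ x ∈ Set.Ioo N (2 * N), ∀ y ∈ Set.Ioo N (2 * N),
        |g' x - g' y| ≤ C 2 * F / N ^ 2 * |x - y| := by
  have hsm : ∀ z ∈ Set.Ioo N (2 * N), ContDiffAt ℝ (⊤ : ℕ∞) g z := fun z hz =>
    h.1.contDiffAt (x := z) (Icc_mem_nhds hz.1 hz.2)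
  refine ⟨deriv g, fun x hx => ((hsm x hx).differentiableAt (by simp)).hasDerivAt, ?_⟩
  have hopen : IsOpen (Set.Ioo N (2 * N)) := isOpen_Ioo
  have hd2 : ∀ z ∈ Set.Ioo N (2 * N), HasDerivAt (deriv g) (iteratedDeriv 2 g z) z := by
    intro z hz
    have h1 : DifferentiableAt ℝ (deriv g) z := by
      have h2 : ContDiffOn ℝ 1 (deriv g) (Set.Ioo N (2 * N)) :=
        (h.1.mono Set.Ioo_subset_Icc_self).deriv_of_isOpen isOpen_Ioo (by
          exact WithTop.coe_le_coe.2 le_top)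
      exact (h2.differentiableOn (by norm_num)).differentiableAt (isOpen_Ioo.mem_nhds hz)
    have h2 := h1.hasDerivAt
    rwa [show deriv (deriv g) z = iteratedDeriv 2 g z by
      rw [iteratedDeriv_succ, iteratedDeriv_one]] at h2
  have hb : ∀ z ∈ Set.Ioo N (2 * N), ‖iteratedDeriv 2 g z‖ ≤ C 2 * F / N ^ 2 := by
    intro z hz
    have h1 := (h.2 2 z ⟨hz.1.le, hz.2.le⟩).2
    have h2 : iteratedDerivWithin 2 g (Set.Icc N (2 * N)) z = iteratedDeriv 2 g z :=
      iteratedDerivWithin_eq_iteratedDeriv (uniqueDiffOn_Icc (by linarith))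
        ((hsm z hz).of_le (WithTop.coe_le_coe.2 le_top)) ⟨hz.1.le, hz.2.le⟩
    rw [h2] at h1
    exact h1
  intro x hx y hy
  have h3 := (convex_Ioo N (2 * N)).norm_image_sub_le_of_norm_hasDerivWithin_le
    (f := deriv g) (f' := fun z => iteratedDeriv 2 g z) (C := C 2 * F / N ^ 2)
    (fun z hz => (hd2 z hz).hasDerivWithinAt) hb hy hx
  simpa [Real.norm_eq_abs] using h3

/-- second differences -/
lemma diff2 {c C : ℕ → ℝ} {N F : ℝ} {g : ℝ → ℝ} (h : Adm c C N F g) (hN : 0 < N)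
    (x u v : ℝ) (hu : N ≤ x + u) (hv : N ≤ x + v) (hu2 : x + 1 + u ≤ 2 * N) (hv2 : x + 1 + v ≤ 2 * N) :
    |(g (x + 1 + u) - g (x + 1 + v)) - (g (x + u) - g (x + v))| ≤ C 2 * F / N ^ 2 * |u - v| := by
  obtain ⟨g', hg', hL⟩ := lip_of_adm h hN
  wlog huv : v ≤ u generalizing u v
  · have := this v u hv hu hv2 hu2 (le_of_not_ge huv)
    rw [abs_sub_comm v u] at this
    refine le_trans (le_of_eq ?_) this
    rw [← abs_neg]
    congr 1
    ring
  rcases huv.eq_or_lt with h0 | hlt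
  · subst h0
    simp
  -- mean value theorem for `z ↦ g (x + 1 + z) - g (x + z)`
  have hcont : ContinuousOn (fun z => g (x + 1 + z) - g (x + z)) (Set.Icc v u) := by
    apply ContinuousOn.sub
    · refine h.1.continuousOn.comp (by fun_prop) ?_
      intro z hz
      constructor <;> linarith [hz.1, hz.2]
    · refine h.1.continuousOn.comp (by fun_prop) ?_
      intro z hz
      constructor <;> linarith [hz.1, hz.2]
  have hder : ∀ z ∈ Set.Ioo v u, HasDerivAt (fun z => g (x + 1 + z) - g (x + z))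
      (g' (x + 1 + z) - g' (x + z)) z := by
    intro z hz
    have h1 := (hg' (x + 1 + z) ⟨by linarith [hz.1], by linarith [hz.2]⟩).comp_const_add (x + 1) z
    have h2 := (hg' (x + z) ⟨by linarith [hz.1], by linarith [hz.2]⟩).comp_const_add x z
    exact h1.sub h2
  obtain ⟨ξ, hξ, hξ2⟩ := exists_hasDerivAt_eq_slope _ _ hlt hcont hder
  have h3 := hL (x + 1 + ξ) ⟨by linarith [hξ.1], by linarith [hξ.2]⟩ (x + ξ)
    ⟨by linarith [hξ.1], by linarith [hξ.2]⟩
  have h4 : |x + 1 + ξ - (x + ξ)| = 1 := by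
    rw [show x + 1 + ξ - (x + ξ) = 1 by ring, abs_one]
  rw [h4, mul_one, hξ2, abs_div, div_le_iff₀ (abs_pos.2 (by linarith))] at h3
  refine le_trans (le_of_eq ?_) h3
  congr 1
  ring

lemma abel_sub (x y : ℕ → ℂ) (u v : ℕ) (t W : ℝ) (hx : ∀ n, ‖x n‖ ≤ 1) (ht0 : 0 ≤ t)
    (hy : ∀ n, n ≤ v → ‖∑ m ∈ Ico u n, y m‖ ≤ t)
    (hW : ∑ n ∈ Ico u (v - 1), ‖x (n + 1) - x n‖ ≤ W) : ‖∑ n ∈ Ico u v, x n * y n‖ ≤ (1 + W) * t := by
  rcases Nat.lt_or_ge u v with h | h
  · have h1 : ∑ n ∈ Ico u v, x n * y n = ∑ n ∈ Ico u v, x (min n (v - 1)) * y n := by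
      refine sum_congr rfl fun n hn => ?_
      rw [mem_Ico] at hn
      rw [min_eq_left (by omega)]
    rw [h1]
    refine abel_le (fun n => x (min n (v - 1))) y u v t W (fun n => hx _) hy ?_
    refine le_trans (le_of_eq ?_) hW
    have h2 : v = (v - 1) + 1 := by omega
    conv_lhs => rw [h2]
    rw [sum_Ico_succ_top (by omega)]
    have h3 : x (min (v - 1 + 1) (v - 1 + 1 - 1)) - x (min (v - 1) (v - 1 + 1 - 1)) = 0 := by
      rw [show min (v - 1 + 1) (v - 1 + 1 - 1) = v - 1 by omega,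
        show min (v - 1) (v - 1 + 1 - 1) = v - 1 by omega, sub_self]
    rw [h3, norm_zero, add_zero]
    refine sum_congr rfl fun n hn => ?_
    rw [mem_Ico] at hn
    rw [show min (n + 1) (v - 1 + 1 - 1) = n + 1 by omega, show min n (v - 1 + 1 - 1) = n by omega]
  · have hW0 : 0 ≤ W := (sum_nonneg fun n _ => norm_nonneg _).trans hW
    rw [Ico_eq_empty (by omega), sum_empty, norm_zero]
    positivity

lemma tpers {c C : ℕ → ℝ} {g : ℝ → ℝ} (r : ℕ → ℝ) (i : ℕ) (G : ℝ)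
    (h : Adm c C (2 ^ i) G g) (hG : 0 ≤ C 2 * G) (δ t : ℝ) (hδ1 : δ ≤ 1) (ht : 1 ≤ t)
    (hδ : 2 * Real.pi * δ * (C 2 * G / 2 ^ i) ≤ 1) (u u' : ℝ) (hu0 : 0 ≤ u) (hu'0 : 0 ≤ u')
    (hu : |u - u'| ≤ δ) (hP : TT g r i u (4 * t)) : TT g r i u' t := by
  by_contra hcon
  have hy : ∀ a b : ℕ, (2 : ℝ) ^ i ≤ a → (b : ℝ) + u' ≤ 2 * 2 ^ i →
      ‖∑ n ∈ Icc a b, e (g ((n : ℝ) + u') + r n)‖ ≤ t := by
    intro a b ha hb
    by_contra hlt
    rw [not_le] at hlt
    exact hcon ⟨a, b, ha, hb, hlt⟩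
  obtain ⟨a, b, ha, hb, hlt⟩ := hP
  have ht0 : 0 ≤ t := by linarith
  have h2i : (0 : ℝ) < 2 ^ i := by positivity
  have hab : a ≤ b := by
    by_contra hlt2
    rw [Icc_eq_empty (by omega), sum_empty, norm_zero] at hlt
    linarith
  -- drop the last term
  have hlast : ‖∑ n ∈ Icc a b, e (g ((n : ℝ) + u) + r n)‖ ≤
      ‖∑ n ∈ Ico a b, e (g ((n : ℝ) + u) + r n)‖ + 1 := by
    rw [← Ico_insert_right hab, sum_insert (by simp)]
    refine (norm_add_le _ _).trans ?_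
    rw [e_norm]
    linarith
  have h1 : ∀ n : ℕ, e (g ((n : ℝ) + u) + r n) =
      e (g ((n : ℝ) + u) - g ((n : ℝ) + u')) * e (g ((n : ℝ) + u') + r n) := by
    intro n
    rw [← e_add]
    congr 1
    ring
  have hu1 := abs_le.1 (hu.trans hδ1)
  have h2 := abel_sub (fun n => e (g ((n : ℝ) + u) - g ((n : ℝ) + u')))
    (fun n => e (g ((n : ℝ) + u') + r n)) a b t 1 (fun n => (e_norm _).le) ht0 (by
      intro n hn
      rcases Nat.lt_or_ge a n with h3 | h3
      · have h4 : Ico a n = Icc a (n - 1) := by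
          ext m
          simp only [mem_Ico, mem_Icc]
          omega
        rw [h4]
        refine hy a (n - 1) ha ?_
        have h5 : ((n - 1 : ℕ) : ℝ) ≤ (b : ℝ) - 1 := by
          have h6 : ((n - 1 + 1 : ℕ) : ℝ) ≤ b := by exact_mod_cast (by omega : n - 1 + 1 ≤ b)
          push_cast at h6
          linarith
        linarith [hu1.1]
      · rw [Ico_eq_empty (by omega), sum_empty, norm_zero]
        exact ht0) (by
      calc ∑ n ∈ Ico a (b - 1), ‖e (g (((n + 1 : ℕ) : ℝ) + u) - g (((n + 1 : ℕ) : ℝ) + u')) -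
            e (g ((n : ℝ) + u) - g ((n : ℝ) + u'))‖ ≤
          ∑ n ∈ Ico a (b - 1), 2 * Real.pi * (C 2 * G / (2 ^ i) ^ 2 * δ) := by
            refine sum_le_sum fun n hn => ?_
            rw [mem_Ico] at hn
            refine (e_lip _ _).trans ?_
            have hn1 : (a : ℝ) ≤ n := by exact_mod_cast hn.1
            have hn2 : (n : ℝ) + 2 ≤ b := by exact_mod_cast (by omega : n + 2 ≤ b)
            have h3 := diff2 h h2i (n : ℝ) u u' (by linarith) (by linarith) (by linarith)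
              (by linarith [hu1.1])
            have h4 : |g (((n + 1 : ℕ) : ℝ) + u) - g (((n + 1 : ℕ) : ℝ) + u') -
                (g ((n : ℝ) + u) - g ((n : ℝ) + u'))| ≤ C 2 * G / (2 ^ i) ^ 2 * δ := by
              push_cast
              refine h3.trans ?_
              gcongr
            gcongr
        _ = ((b - 1 - a : ℕ) : ℝ) * (2 * Real.pi * (C 2 * G / (2 ^ i) ^ 2 * δ)) := by
            rw [sum_const, Nat.card_Ico, nsmul_eq_mul]
        _ ≤ (2 : ℝ) ^ i * (2 * Real.pi * (C 2 * G / (2 ^ i) ^ 2 * δ)) := by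
            have hδ0 : 0 ≤ δ := (abs_nonneg _).trans hu
            have h4 : ((b - 1 - a : ℕ) : ℝ) ≤ (2 : ℝ) ^ i := by
              rcases Nat.lt_or_ge (b - 1) a with h5 | h5
              · rw [Nat.sub_eq_zero_of_le h5.le, Nat.cast_zero]
                positivity
              · rw [Nat.cast_sub h5]
                have h6 : ((b - 1 : ℕ) : ℝ) ≤ b := by exact_mod_cast Nat.sub_le b 1
                linarith
            gcongr
        _ = 2 * Real.pi * δ * (C 2 * G / 2 ^ i) := by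
            field_simp
        _ ≤ 1 := hδ)
  simp_rw [h1] at hlt hlast
  linarith

end Pool.Agent.Q39.EP
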