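import Pool.Agent.Q39.EP.Tr

set_option autoImplicit false

/-!
# Translates of functions which are admissible at every scale
-/

namespace Pool.Agent.Q39.EP

open Finset MeasureTheory

lemma split_le (z : ℕ → ℂ) (a b p : ℕ) :
    ‖∑ n ∈ Ico a b, z n‖ ≤ ‖∑ n ∈ Ico a (min b p), z n‖ + ‖∑ n ∈ Ico (max a p) b, z n‖ := by
  have h1 : Ico a b = Ico a (min b p) ∪ Ico (max a p) b := by
    ext n
    simp only [mem_Ico, mem_union, lt_min_iff, max_le_iff]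
    omega
  have h2 : Disjoint (Ico a (min b p)) (Ico (max a p) b) := by
    rw [Finset.disjoint_left]
    intro n h3 h4
    rw [mem_Ico] at h3 h4
    have := lt_min_iff.1 h3.2
    have := max_le_iff.1 h4.1
    omega
  conv_lhs => rw [h1, sum_union h2]
  exact norm_add_le _ _

lemma growth (A κ ε D : ℝ) (hA : 0 < A) (hκ : 0 < κ) (hD : 1 - 2 * ε < D) : ∃ r : ℝ, 0 < r ∧ r < 1 ∧
    ∃ i2 : ℕ, ∀ i : ℕ, i2 ≤ i → ∀ H : ℝ, (2 : ℝ) ^ i ≤ H →
      A * (i + 1) ^ 4 * H ^ (-(2 * ε)) / (1 / (κ * H)) * (1 / (κ * H)) ^ D ≤ r ^ i := by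
  set s : ℝ := D - 1 + 2 * ε with hs
  have hs0 : 0 < s := by rw [hs]; linarith
  set r : ℝ := (2 : ℝ) ^ (-(s / 2)) with hr
  have hr0 : 0 < r := by positivity
  have hr1 : r < 1 := Real.rpow_lt_one_of_one_lt_of_neg (by norm_num) (by linarith)
  have hgrow : ∃ i2 : ℕ, ∀ i : ℕ, i2 ≤ i →
      A * κ ^ (1 - D) * ((i : ℝ) + 1) ^ 4 ≤ (2 : ℝ) ^ (s / 2 * i) := by
    have h3 : Filter.Tendsto (fun i : ℕ => ((i : ℝ) + 1) ^ 4 * ((2 : ℝ) ^ (-(s / 2))) ^ i) Filter.atTop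
        (nhds 0) := by
      have h4 := tendsto_pow_const_mul_const_pow_of_abs_lt_one 4 (r := (2 : ℝ) ^ (-(s / 2)))
        (by rw [abs_of_pos (by positivity)]; exact hr1)
      have h5 := (Filter.tendsto_add_atTop_iff_nat 1).mpr h4
      have h6 := h5.const_mul (((2 : ℝ) ^ (-(s / 2)))⁻¹)
      rw [mul_zero] at h6
      refine h6.congr fun i => ?_
      push_cast
      have : (2 : ℝ) ^ (-(s / 2)) ≠ 0 := by positivity
      field_simp
      ring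
    have h4 : ∀ᶠ i : ℕ in Filter.atTop, ((i : ℝ) + 1) ^ 4 * ((2 : ℝ) ^ (-(s / 2))) ^ i <
        1 / (A * κ ^ (1 - D)) := by
      apply h3.eventually_lt_const
      positivity
    rw [Filter.eventually_atTop] at h4
    obtain ⟨i2, hi2⟩ := h4
    refine ⟨i2, fun i hi => ?_⟩
    have h5 := hi2 i hi
    rw [lt_div_iff₀ (by positivity), ← Real.rpow_natCast ((2 : ℝ) ^ (-(s / 2))) i,
      ← Real.rpow_mul (by norm_num), neg_mul, Real.rpow_neg (by norm_num)] at h5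
    have h6 : (0 : ℝ) < 2 ^ (s / 2 * i) := by positivity
    have h7 : A * κ ^ (1 - D) * ((i : ℝ) + 1) ^ 4 * (2 ^ (s / 2 * (i : ℝ)))⁻¹ < 1 := by
      calc A * κ ^ (1 - D) * ((i : ℝ) + 1) ^ 4 * (2 ^ (s / 2 * (i : ℝ)))⁻¹ =
          ((i : ℝ) + 1) ^ 4 * (2 ^ (s / 2 * (i : ℝ)))⁻¹ * (A * κ ^ (1 - D)) := by ring
        _ < 1 := h5
    rw [← div_eq_mul_inv, div_lt_one h6] at h7
    exact h7.le
  obtain ⟨i2, hi2⟩ := hgrow
  refine ⟨r, hr0, hr1, i2, fun i hi H hH => ?_⟩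
  have h4 : 0 < H := lt_of_lt_of_le (by positivity) hH
  have h5 : A * (i + 1) ^ 4 * H ^ (-(2 * ε)) / (1 / (κ * H)) * (1 / (κ * H)) ^ D =
      A * κ ^ (1 - D) * (i + 1) ^ 4 * H ^ (-s) := by
    rw [one_div, Real.inv_rpow (by positivity), Real.mul_rpow hκ.le h4.le, div_inv_eq_mul,
      Real.rpow_sub hκ, Real.rpow_one]
    have h6 : H ^ (-s) = H ^ (-(2 * ε)) * H / H ^ D := by
      rw [← Real.rpow_add_one h4.ne', ← Real.rpow_sub h4]
      congr 1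
      rw [hs]
      ring
    rw [h6]
    have h7 : (0 : ℝ) < H ^ D := by positivity
    have h8 : (0 : ℝ) < κ ^ D := by positivity
    field_simp
  rw [h5]
  have h6 : H ^ (-s) ≤ ((2 : ℝ) ^ i) ^ (-s) :=
    Real.rpow_le_rpow_of_nonpos (by positivity) hH (by linarith)
  have h7 := hi2 i hi
  have h8 : ((2 : ℝ) ^ i) ^ (-s) = (2 : ℝ) ^ (-(s * i)) := by
    rw [← Real.rpow_natCast, ← Real.rpow_mul (by norm_num)]
    congr 1
    ring
  calc A * κ ^ (1 - D) * ((i : ℝ) + 1) ^ 4 * H ^ (-s) ≤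
      (2 : ℝ) ^ (s / 2 * i) * ((2 : ℝ) ^ i) ^ (-s) := by gcongr
    _ = r ^ i := by
        rw [h8, hr, ← Real.rpow_natCast ((2 : ℝ) ^ (-(s / 2))), ← Real.rpow_mul (by norm_num),
          ← Real.rpow_add (by norm_num)]
        congr 1
        ring

theorem dim_tr (c C : ℕ → ℝ) (hc : ∀ j, 0 < c j) (F g : ℝ → ℝ) (hF : ∀ N : ℝ, 2 ≤ N → N ^ 2 ≤ F N)
    (hg : ∀ N : ℝ, 2 ≤ N → Adm c C N (F N) g) (r : ℕ → ℝ) (ε D R : ℝ) (hε : 0 < ε) (hD0 : 0 < D)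
    (hD : 1 - 2 * ε < D) (hR : 0 ≤ R) :
    dimH {u : ℝ | u ∈ Set.Icc 0 R ∧ ∀ i1 : ℕ, ∃ i : ℕ, i1 ≤ i ∧
      TT g r i u (((2 : ℝ) ^ i) ^ (1 / 2 : ℝ) * F (2 ^ i) ^ ε)} ≤ ENNReal.ofReal D := by
  obtain ⟨K, hK⟩ := Pool.Agent.Y933.KI.general c hc
  have hi4 : ∀ i : ℕ, 1 ≤ i → (2 : ℝ) ≤ 2 ^ i := fun i hi => by
    calc (2 : ℝ) = 2 ^ 1 := by norm_num
      _ ≤ 2 ^ i := pow_le_pow_right₀ (by norm_num) hi
  have hF2 : ∀ N : ℝ, 2 ≤ N → 0 < F N := fun N hN => by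
    have := hF N hN
    have : 0 < N ^ 2 := by positivity
    linarith
  have hC2 : 0 ≤ C 2 := by
    have h1 := (hg 2 le_rfl).2 2 2 ⟨le_rfl, by norm_num⟩
    have h2 := (abs_nonneg _).trans h1.2
    have h3 := hF2 2 le_rfl
    by_contra hneg
    rw [not_le] at hneg
    have h4 : C 2 * F 2 < 0 := mul_neg_of_neg_of_pos hneg h3
    norm_num at h2
    linarith
  have hpi := Real.pi_pos
  set κ : ℝ := 2 * Real.pi * C 2 + 1 with hκ
  have hκ1 : 1 ≤ κ := by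
    have : 0 ≤ 2 * Real.pi * C 2 := by positivity
    linarith
  set A : ℝ := 16 * (|K| + 1) * (R + 2) with hA
  have hA0 : 0 < A := by rw [hA]; positivity
  obtain ⟨q, hq0, hq1, i2, hi2⟩ := growth A κ ε D hA0 (by linarith) hD
  set t : ℕ → ℝ := fun i => ((2 : ℝ) ^ i) ^ (1 / 2 : ℝ) * (F (2 ^ i) ^ ε / 4) with ht
  set T : ℕ → ℝ := fun i => ((2 : ℝ) ^ i) ^ (1 / 2 : ℝ) * F (2 ^ i) ^ ε with hT
  set δ : ℕ → ℝ := fun i => 1 / (κ * (F (2 ^ i) / 2 ^ i)) with hδ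
  set M : ℕ → ℝ := fun i => A * (i + 1) ^ 4 * (F (2 ^ i) / 2 ^ i) ^ (-(2 * ε)) with hM
  have hH : ∀ i : ℕ, 1 ≤ i → (2 : ℝ) ^ i ≤ F (2 ^ i) / 2 ^ i := fun i hi => by
    rw [le_div_iff₀ (by positivity)]
    have := hF _ (hi4 i hi)
    nlinarith
  have key := dim_abs0 (TT g r) t T δ M R D (1 / 2) q hD0 (by norm_num) (by norm_num) hq0 hq1
    (max 4 i2)
    (fun i hi => by
      have hi0 : 1 ≤ i := by have := (le_max_left _ _).trans hi; omega
      have := hF2 _ (hi4 i hi0)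
      simp only [hδ]
      positivity)
    (fun i hi => by
      have hi0 : 1 ≤ i := by have := (le_max_left _ _).trans hi; omega
      have h3 := hH i hi0
      simp only [hδ]
      rw [one_div_pow]
      apply one_div_le_one_div_of_le (by positivity)
      have h4 : 0 < F (2 ^ i) / 2 ^ i := lt_of_lt_of_le (by positivity) h3
      nlinarith)
    (fun i hi => by
      have hi0 : 1 ≤ i := by have := (le_max_left _ _).trans hi; omega
      have := hF2 _ (hi4 i hi0)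
      simp only [hM]
      positivity)
    (fun i hi => by
      have hi0 : 1 ≤ i := by have := (le_max_left _ _).trans hi; omega
      have h2 := hi4 i hi0
      have h3 := hH i hi0
      have hFi := hF2 _ h2
      have hFN : (2 : ℝ) ^ i ≤ F (2 ^ i) := by
        have := hF _ h2
        nlinarith
      have h5 := hK (2 ^ i) (F (2 ^ i)) g h2 hFN (hg _ h2).1 (fun j x hx => ((hg _ h2).2 j x hx).1) r 0
        (R + 1) (F (2 ^ i) ^ ε / 4) le_rfl (by linarith) (by positivity)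
      refine le_trans (le_of_eq ?_) (h5.trans ?_)
      · rfl
      · apply ENNReal.ofReal_le_ofReal
        have h6 : (F (2 ^ i) ^ ε / 4) ^ 2 = F (2 ^ i) ^ (2 * ε) / 16 := by
          rw [div_pow, ← Real.rpow_natCast (F (2 ^ i) ^ ε) 2, ← Real.rpow_mul hFi.le]
          norm_num
          ring_nf
        have h7 : (1 + Real.log ((2 : ℝ) ^ i)) ^ 3 ≤ ((i : ℝ) + 1) ^ 4 := by
          have h8 : 1 + Real.log ((2 : ℝ) ^ i) ≤ (i : ℝ) + 1 := by
            rw [Real.log_pow]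
            have h9 : Real.log 2 ≤ 1 := by
              have := Real.log_two_lt_d9
              linarith
            have h10 : (0 : ℝ) ≤ i := Nat.cast_nonneg i
            nlinarith
          have h9 : 0 ≤ 1 + Real.log ((2 : ℝ) ^ i) := by
            have := Real.log_nonneg (show (1 : ℝ) ≤ 2 ^ i by linarith)
            linarith
          calc (1 + Real.log ((2 : ℝ) ^ i)) ^ 3 ≤ ((i : ℝ) + 1) ^ 3 := pow_le_pow_left₀ h9 h8 3
            _ ≤ ((i : ℝ) + 1) ^ 4 := by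
                have h10 : (0 : ℝ) ≤ i := Nat.cast_nonneg i
                exact pow_le_pow_right₀ (by linarith) (by norm_num)
        have h8 : (R + 1 - 0) + ((2 : ℝ) ^ i) ^ 2 / F (2 ^ i) ≤ R + 2 := by
          have h9 : ((2 : ℝ) ^ i) ^ 2 / F (2 ^ i) ≤ 1 := by
            rw [div_le_one hFi]
            exact hF _ h2
          linarith
        have h8' : 0 ≤ (R + 1 - 0) + ((2 : ℝ) ^ i) ^ 2 / F (2 ^ i) := by
          have : 0 ≤ ((2 : ℝ) ^ i) ^ 2 / F (2 ^ i) := by positivity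
          linarith
        have h9 : 0 ≤ (1 + Real.log ((2 : ℝ) ^ i)) ^ 3 := by
          have := Real.log_nonneg (show (1 : ℝ) ≤ 2 ^ i by linarith)
          positivity
        have h10 : F (2 ^ i) ^ (-(2 * ε)) ≤ (F (2 ^ i) / 2 ^ i) ^ (-(2 * ε)) := by
          apply Real.rpow_le_rpow_of_nonpos
          · positivity
          · rw [div_le_iff₀ (by positivity)]
            nlinarith
          · linarith
        rw [h6]
        simp only [hM]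
        calc K * (1 + Real.log ((2 : ℝ) ^ i)) ^ 3 * ((R + 1 - 0) + ((2 : ℝ) ^ i) ^ 2 / F (2 ^ i)) /
            (F (2 ^ i) ^ (2 * ε) / 16) ≤
            (|K| + 1) * ((i : ℝ) + 1) ^ 4 * (R + 2) / (F (2 ^ i) ^ (2 * ε) / 16) := by
              apply div_le_div_of_nonneg_right _ (by positivity)
              have hK1 : K ≤ |K| + 1 := by linarith [le_abs_self K]
              calc K * (1 + Real.log ((2 : ℝ) ^ i)) ^ 3 *
                  ((R + 1 - 0) + ((2 : ℝ) ^ i) ^ 2 / F (2 ^ i)) ≤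
                  (|K| + 1) * (1 + Real.log ((2 : ℝ) ^ i)) ^ 3 *
                  ((R + 1 - 0) + ((2 : ℝ) ^ i) ^ 2 / F (2 ^ i)) := by gcongr
                _ ≤ (|K| + 1) * ((i : ℝ) + 1) ^ 4 * (R + 2) := by gcongr
          _ = A * (i + 1) ^ 4 * F (2 ^ i) ^ (-(2 * ε)) := by
              rw [Real.rpow_neg hFi.le, hA]
              field_simp
          _ ≤ A * (i + 1) ^ 4 * (F (2 ^ i) / 2 ^ i) ^ (-(2 * ε)) := by gcongr)
    (fun i hi u u' hu0 hu'0 _ huu hP => by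
      have hi0 : 4 ≤ i := (le_max_left _ _).trans hi
      have h2 := hi4 i (by omega)
      have h3 := hH i (by omega)
      have hFi := hF2 _ h2
      have hδ1 : δ i ≤ 1 := by
        simp only [hδ]
        rw [div_le_one (by positivity)]
        have h4 : 1 ≤ F (2 ^ i) / 2 ^ i := by linarith
        nlinarith
      have ht1 : 1 ≤ t i := by
        simp only [ht]
        have h5 : (4 : ℝ) ≤ ((2 : ℝ) ^ i) ^ (1 / 2 : ℝ) := by
          calc (4 : ℝ) = ((2 : ℝ) ^ 4) ^ (1 / 2 : ℝ) := by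
                rw [← Real.rpow_natCast, ← Real.rpow_mul (by norm_num)]
                norm_num
            _ ≤ ((2 : ℝ) ^ i) ^ (1 / 2 : ℝ) :=
                Real.rpow_le_rpow (by positivity) (pow_le_pow_right₀ (by norm_num) hi0) (by norm_num)
        have h6 : 1 ≤ F (2 ^ i) ^ ε := by
          apply Real.one_le_rpow _ hε.le
          have := hF _ h2
          nlinarith
        nlinarith
      have hTt : T i = 4 * t i := by
        simp only [ht, hT]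
        ring
      rw [hTt] at hP
      refine tpers r i (F (2 ^ i)) (hg _ h2) (by positivity) (δ i) (t i) hδ1 ht1 ?_ u u' hu0 hu'0
        huu hP
      simp only [hδ]
      have h5 : 2 * Real.pi * (1 / (κ * (F (2 ^ i) / 2 ^ i))) * (C 2 * F (2 ^ i) / 2 ^ i) =
          2 * Real.pi * C 2 / κ := by
        field_simp
      rw [h5, div_le_one (by linarith), hκ]
      linarith)
    (fun i hi => by
      have hi0 : 1 ≤ i := by have := (le_max_left _ _).trans hi; omega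
      exact hi2 i ((le_max_right _ _).trans hi) _ (hH i hi0))
  exact key

/-- the bound with the exponent `ε` fails for the translate by `u` -/
def TFails (r : ℕ → ℝ) (g F : ℝ → ℝ) (ε u : ℝ) : Prop :=
  ¬ ∃ K : ℝ, ∀ N : ℝ, 2 ≤ N → ∀ N1 N2 : ℕ, N ≤ N1 → (N2 : ℝ) + u ≤ 2 * N →
    ‖∑ n ∈ Icc N1 N2, e (g ((n : ℝ) + u) + r n)‖ ≤ K * N ^ (1 / 2 : ℝ) * F N ^ ε

lemma tio_of_fails (c C : ℕ → ℝ) (hc : ∀ j, 0 < c j) (F g : ℝ → ℝ)
    (hF : ∀ N : ℝ, 2 ≤ N → N ^ 2 ≤ F N)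
    (hg : ∀ N : ℝ, 2 ≤ N → Adm c C N (F N) g) (r : ℕ → ℝ) (ε : ℝ) (hε : 0 < ε) (u : ℝ) (hu : 0 ≤ u)
    (h : TFails r g F ε u) (i1 : ℕ) :
    ∃ i : ℕ, i1 ≤ i ∧ TT g r i u (((2 : ℝ) ^ i) ^ (1 / 2 : ℝ) * F (2 ^ i) ^ ε) := by
  by_contra hcon
  push Not at hcon
  apply h
  have hF' : ∀ N : ℝ, 2 ≤ N → N ≤ F N := fun N hN => by
    have := hF N hN
    nlinarith
  have hs : ∀ N : ℝ, 2 ≤ N → ∀ x y : ℝ, x ∈ Set.Icc N (2 * N) → y ∈ Set.Icc N (2 * N) →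
      c 1 * F N / N * |y - x| ≤ |g y - g x| ∧ |g y - g x| ≤ C 1 * F N / N * |y - x| :=
    fun N hN x y hx hy => slope_of_adm (hg N hN) x y hx hy
  have hcC := c_le_C (hc 1) hF' hs
  have hc1 := hc 1
  have hr : 1 ≤ C 1 / c 1 := by rw [le_div_iff₀ hc1]; linarith
  set Q : ℝ := 4 * (C 1 / c 1) ^ 3 with hQ
  have hQ0 : 0 < Q := by positivity
  have hgood : ∀ i, i1 ≤ i → ∀ a b : ℕ, (2 : ℝ) ^ i ≤ a → (b : ℝ) + u ≤ 2 * 2 ^ i →
      ‖∑ n ∈ Icc a b, e (g ((n : ℝ) + u) + r n)‖ ≤ ((2 : ℝ) ^ i) ^ (1 / 2 : ℝ) * F (2 ^ i) ^ ε := by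
    intro i hi a b ha hb
    by_contra hlt
    rw [not_le] at hlt
    exact hcon i hi ⟨a, b, ha, hb, hlt⟩
  obtain ⟨R, hR⟩ := exists_nat_ge u
  set i3 := max i1 R with hi3
  have hR2 : u ≤ 2 ^ i3 := by
    have h1 : (R : ℝ) ≤ 2 ^ R := by exact_mod_cast Nat.lt_two_pow_self.le
    have h2 : (2 : ℝ) ^ R ≤ 2 ^ i3 := pow_le_pow_right₀ (by norm_num) (le_max_right _ _)
    linarith
  refine ⟨2 * 2 ^ i3 + u + 3 * Q ^ ε, fun N hN N1 N2 h1 h2 => ?_⟩
  have hN0 : 0 < N := by linarith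
  have hFN := hF' N hN
  have hFN0 : 0 < F N := by linarith
  have hNr : 1 ≤ N ^ (1 / 2 : ℝ) := Real.one_le_rpow (by linarith) (by norm_num)
  have hFr : 1 ≤ F N ^ ε := Real.one_le_rpow (by linarith) hε.le
  have hQe : 0 < Q ^ ε := by positivity
  have hcount : ‖∑ n ∈ Icc N1 N2, e (g ((n : ℝ) + u) + r n)‖ ≤ N + 1 := by
    refine (norm_sum_le _ _).trans ?_
    simp only [e_norm]
    rw [sum_const, Nat.card_Icc, nsmul_eq_mul, mul_one]
    rcases Nat.lt_or_ge (N2 + 1) N1 with h3 | h3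
    · rw [Nat.sub_eq_zero_of_le h3.le, Nat.cast_zero]
      linarith
    · rw [Nat.cast_sub h3]
      push_cast
      linarith
  set i := Nat.log 2 ⌊N⌋₊ with hi
  have hfl : ⌊N⌋₊ ≠ 0 := by
    have : 1 ≤ ⌊N⌋₊ := Nat.le_floor (by push_cast; linarith)
    omega
  have hi1' : (2 : ℝ) ^ i ≤ N := by
    have h3 := Nat.pow_log_le_self 2 hfl
    have h4 : ((2 ^ i : ℕ) : ℝ) ≤ (⌊N⌋₊ : ℝ) := by exact_mod_cast h3
    push_cast at h4
    exact h4.trans (Nat.floor_le hN0.le)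
  have hi2 : N < 2 * 2 ^ i := by
    have h3 := Nat.lt_pow_succ_log_self (b := 2) (by norm_num) ⌊N⌋₊
    have h4 : N < ((2 ^ (i + 1) : ℕ) : ℝ) := (Nat.floor_lt hN0.le).1 h3
    push_cast at h4
    rw [pow_succ] at h4
    linarith
  have hi3' : 1 ≤ i := by
    by_contra h0
    have : i = 0 := by omega
    rw [this] at hi2
    norm_num at hi2
    linarith
  have hi4 : (2 : ℝ) ≤ 2 ^ i := by
    calc (2 : ℝ) = 2 ^ 1 := by norm_num
      _ ≤ 2 ^ i := pow_le_pow_right₀ (by norm_num) hi3'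
  rcases Nat.lt_or_ge i i3 with h3 | h3
  · have h4 : (2 : ℝ) ^ (i + 1) ≤ 2 ^ i3 := pow_le_pow_right₀ (by norm_num) h3
    rw [pow_succ] at h4
    have h5 : N + 1 ≤ 2 * 2 ^ i3 := by linarith
    calc ‖∑ n ∈ Icc N1 N2, e (g ((n : ℝ) + u) + r n)‖ ≤ 2 * 2 ^ i3 := hcount.trans h5
      _ ≤ (2 * 2 ^ i3 + u + 3 * Q ^ ε) * 1 * 1 := by linarith
      _ ≤ (2 * 2 ^ i3 + u + 3 * Q ^ ε) * N ^ (1 / 2 : ℝ) * F N ^ ε := by gcongr
  · have hii1 : i1 ≤ i := (le_max_left _ _).trans h3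
    obtain ⟨hc1, hc2⟩ := comp2 (hc 1) hF' hs (2 ^ i) N hi4 hi1' hi2
    rw [← hQ] at hc1 hc2
    have hFi : 0 < F (2 ^ i) := lt_of_lt_of_le (by positivity) (hF' _ hi4)
    have hFi1 : 0 < F (2 * 2 ^ i) := lt_of_lt_of_le (by positivity) (hF' _ (by linarith))
    have ht1 : ((2 : ℝ) ^ i) ^ (1 / 2 : ℝ) * F (2 ^ i) ^ ε ≤ N ^ (1 / 2 : ℝ) * (Q ^ ε * F N ^ ε) := by
      rw [← Real.mul_rpow hQ0.le hFN0.le]
      gcongr
    have ht2 : ((2 : ℝ) ^ (i + 1)) ^ (1 / 2 : ℝ) * F (2 ^ (i + 1)) ^ ε ≤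
        2 * (N ^ (1 / 2 : ℝ) * (Q ^ ε * F N ^ ε)) := by
      have e1 : (2 : ℝ) ^ (i + 1) = 2 * 2 ^ i := by rw [pow_succ]; ring
      have h5 : ((2 : ℝ) * 2 ^ i) ^ (1 / 2 : ℝ) ≤ 2 * N ^ (1 / 2 : ℝ) := by
        rw [Real.mul_rpow (by norm_num) (by positivity)]
        have h6 : (2 : ℝ) ^ (1 / 2 : ℝ) ≤ 2 := by
          calc (2 : ℝ) ^ (1 / 2 : ℝ) ≤ 2 ^ (1 : ℝ) :=
                Real.rpow_le_rpow_of_exponent_le (by norm_num) (by norm_num)
            _ = 2 := Real.rpow_one 2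
        gcongr
      rw [e1, ← Real.mul_rpow hQ0.le hFN0.le, ← mul_assoc]
      gcongr
    have hp1 : 0 ≤ ((2 : ℝ) ^ i) ^ (1 / 2 : ℝ) * F (2 ^ i) ^ ε := by positivity
    have hp2 : 0 ≤ ((2 : ℝ) ^ (i + 1)) ^ (1 / 2 : ℝ) * F (2 ^ (i + 1)) ^ ε := by
      have : 0 < F (2 ^ (i + 1)) := by
        rw [pow_succ, mul_comm]
        exact hFi1
      positivity
    have hui : u ≤ 2 * 2 ^ i := by
      have : (2 : ℝ) ^ i3 ≤ 2 ^ i := pow_le_pow_right₀ (by norm_num) h3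
      linarith
    set z : ℕ → ℂ := fun n => e (g ((n : ℝ) + u) + r n) with hz
    -- the splitting points
    set B := ⌊2 * (2 : ℝ) ^ i - u⌋₊ with hB
    have hB1 : (B : ℝ) ≤ 2 * 2 ^ i - u := Nat.floor_le (by linarith)
    have hB2 : 2 * (2 : ℝ) ^ i - u < B + 1 := Nat.lt_floor_add_one _
    set p := min (B + 1) (2 ^ (i + 1)) with hp
    have hb1 : ‖∑ n ∈ Ico N1 (min (N2 + 1) p), z n‖ ≤ ((2 : ℝ) ^ i) ^ (1 / 2 : ℝ) * F (2 ^ i) ^ ε := by
      rcases Nat.lt_or_ge N1 (min (N2 + 1) p) with h5 | h5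
      · have h6 : Ico N1 (min (N2 + 1) p) = Icc N1 (min (N2 + 1) p - 1) := by
          ext n
          simp only [mem_Ico, mem_Icc]
          omega
        rw [h6]
        refine hgood i hii1 N1 _ (hi1'.trans h1) ?_
        have h7 : min (N2 + 1) p - 1 ≤ B := by
          have := min_le_right (N2 + 1) p
          have := min_le_left (B + 1) (2 ^ (i + 1))
          omega
        have h8 : ((min (N2 + 1) p - 1 : ℕ) : ℝ) ≤ B := by exact_mod_cast h7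
        linarith
      · rw [Ico_eq_empty (by omega), sum_empty, norm_zero]
        exact hp1
    have hb2 : ‖∑ n ∈ Ico (max N1 p) (min (N2 + 1) (2 ^ (i + 1))), z n‖ ≤ u := by
      refine (norm_sum_le _ _).trans ?_
      simp only [hz, e_norm]
      rw [sum_const, Nat.card_Ico, nsmul_eq_mul, mul_one]
      have h5 : min (N2 + 1) (2 ^ (i + 1)) - max N1 p ≤ 2 ^ (i + 1) - p := by
        have := min_le_right (N2 + 1) (2 ^ (i + 1))
        have := le_max_right N1 p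
        omega
      have h6 : ((min (N2 + 1) (2 ^ (i + 1)) - max N1 p : ℕ) : ℝ) ≤ ((2 ^ (i + 1) - p : ℕ) : ℝ) := by
        exact_mod_cast h5
      refine h6.trans ?_
      rcases Nat.le_total (B + 1) (2 ^ (i + 1)) with h7 | h7
      · rw [hp, min_eq_left h7, Nat.cast_sub h7]
        push_cast
        rw [pow_succ]
        linarith
      · rw [hp, min_eq_right h7, Nat.sub_self, Nat.cast_zero]
        exact hu
    have hb3 : ‖∑ n ∈ Ico (max N1 (2 ^ (i + 1))) (N2 + 1), z n‖ ≤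
        ((2 : ℝ) ^ (i + 1)) ^ (1 / 2 : ℝ) * F (2 ^ (i + 1)) ^ ε := by
      have h6 : Ico (max N1 (2 ^ (i + 1))) (N2 + 1) = Icc (max N1 (2 ^ (i + 1))) N2 := rfl
      rw [h6]
      refine hgood (i + 1) (by omega) _ _ ?_ ?_
      · have : ((2 ^ (i + 1) : ℕ) : ℝ) ≤ ((max N1 (2 ^ (i + 1)) : ℕ) : ℝ) := by
          exact_mod_cast le_max_right _ _
        push_cast at this ⊢
        exact this
      · rw [pow_succ]
        linarith
    have hsp1 := split_le z N1 (N2 + 1) (2 ^ (i + 1))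
    have hsp2 := split_le z N1 (min (N2 + 1) (2 ^ (i + 1))) p
    have hmin : min (min (N2 + 1) (2 ^ (i + 1))) p = min (N2 + 1) p := by
      rw [min_assoc, hp, min_eq_right (min_le_right _ _)]
    rw [hmin] at hsp2
    have hIco : Icc N1 N2 = Ico N1 (N2 + 1) := rfl
    have htot : ‖∑ n ∈ Icc N1 N2, z n‖ ≤ 3 * (N ^ (1 / 2 : ℝ) * (Q ^ ε * F N ^ ε)) + u := by
      rw [hIco]
      linarith
    calc ‖∑ n ∈ Icc N1 N2, e (g ((n : ℝ) + u) + r n)‖ ≤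
        3 * (N ^ (1 / 2 : ℝ) * (Q ^ ε * F N ^ ε)) + u * 1 * 1 := by
          rw [mul_one, mul_one]
          exact htot
      _ ≤ 3 * (N ^ (1 / 2 : ℝ) * (Q ^ ε * F N ^ ε)) + u * N ^ (1 / 2 : ℝ) * F N ^ ε := by gcongr
      _ = (u + 3 * Q ^ ε) * N ^ (1 / 2 : ℝ) * F N ^ ε := by ring
      _ ≤ (2 * 2 ^ i3 + u + 3 * Q ^ ε) * N ^ (1 / 2 : ℝ) * F N ^ ε := by
          gcongr
          have : (0 : ℝ) ≤ 2 * 2 ^ i3 := by positivity
          linarith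

theorem dim_tfails (c C : ℕ → ℝ) (hc : ∀ j, 0 < c j) (F g : ℝ → ℝ)
    (hF : ∀ N : ℝ, 2 ≤ N → N ^ 2 ≤ F N)
    (hg : ∀ N : ℝ, 2 ≤ N → Adm c C N (F N) g) (r : ℕ → ℝ) (ε : ℝ) (hε : 0 < ε) :
    dimH {u : ℝ | 0 ≤ u ∧ TFails r g F ε u} ≤ ENNReal.ofReal (1 - 2 * ε) := by
  by_contra hcon
  rw [not_le] at hcon
  obtain ⟨D, hD0, hD1, hD2⟩ := ENNReal.lt_iff_exists_real_btwn.1 hcon
  rw [ENNReal.ofReal_lt_ofReal_iff'] at hD1
  have key : ∀ R : ℕ, dimH {u : ℝ | u ∈ Set.Icc 0 (R : ℝ) ∧ ∀ i1 : ℕ, ∃ i : ℕ, i1 ≤ i ∧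
      TT g r i u (((2 : ℝ) ^ i) ^ (1 / 2 : ℝ) * F (2 ^ i) ^ ε)} ≤ ENNReal.ofReal D := fun R =>
    dim_tr c C hc F g hF hg r ε D R hε hD1.2 hD1.1 (Nat.cast_nonneg R)
  have hsub : {u : ℝ | 0 ≤ u ∧ TFails r g F ε u} ⊆ ⋃ R : ℕ, {u : ℝ | u ∈ Set.Icc 0 (R : ℝ) ∧
      ∀ i1 : ℕ, ∃ i : ℕ, i1 ≤ i ∧
      TT g r i u (((2 : ℝ) ^ i) ^ (1 / 2 : ℝ) * F (2 ^ i) ^ ε)} := by
    intro u hu
    rw [Set.mem_iUnion]
    obtain ⟨R, hR⟩ := exists_nat_ge u
    exact ⟨R, ⟨hu.1, hR⟩, fun i1 => tio_of_fails c C hc F g hF hg r ε hε u hu.1 hu.2 i1⟩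
  have h1 := (dimH_mono hsub).trans_eq (dimH_iUnion _)
  have h2 := h1.trans (iSup_le key)
  exact absurd hD2 (not_lt.2 h2)

end Pool.Agent.Q39.EP
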